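import Mathlib

set_option autoImplicit false

namespace Pool.Agent.Lib_MP_ce52b8_co

open Finset

/-- A `|T|`-regular bipartite graph on finite vertex classes decomposes into perfect matchings
indexed by `T`. -/
theorem hall_decomp {X Y τ : Type*} [Finite X] [Finite Y] [Nonempty Y] [DecidableEq τ]
    (T : Finset τ) : ∀ (E : X → Y → Prop), (∀ x, {y | E x y}.ncard = T.card) →
    (∀ y, {x | E x y}.ncard = T.card) →
    ∃ φ : τ → X → Y, (∀ t ∈ T, Function.Bijective (φ t)) ∧ (∀ t ∈ T, ∀ x, E x (φ t x)) ∧
      (∀ t ∈ T, ∀ t' ∈ T, t ≠ t' → ∀ x, φ t x ≠ φ t' x) ∧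
      (∀ x y, E x y → ∃ t ∈ T, φ t x = y) := by
  classical
  cases nonempty_fintype X
  cases nonempty_fintype Y
  induction T using Finset.induction_on with
  | empty =>
    intro E h1 h2
    refine ⟨fun _ _ => Classical.arbitrary Y, by simp, by simp, by simp, ?_⟩
    intro x y hxy
    exfalso
    have := h1 x
    rw [Finset.card_empty, Set.ncard_eq_zero (Set.toFinite _)] at this
    have h3 : y ∈ ({y | E x y} : Set Y) := hxy
    rw [this] at h3
    exact h3
  | insert t T ht ih =>
    intro E h1 h2
    have hcard : (insert t T).card = T.card + 1 := Finset.card_insert_of_notMem ht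
    have hn1 : ∀ x, (univ.filter (fun y => E x y)).card = T.card + 1 := by
      intro x
      rw [← hcard, ← h1 x, ← Set.ncard_coe_finset]
      congr 1
      ext y; simp
    have hn2 : ∀ y, (univ.filter (fun x => E x y)).card = T.card + 1 := by
      intro y
      rw [← hcard, ← h2 y, ← Set.ncard_coe_finset]
      congr 1
      ext x; simp
    -- Hall
    have hall : ∃ f : X → Y, Function.Injective f ∧ ∀ x, f x ∈ univ.filter (fun y => E x y) := by
      rw [← Finset.all_card_le_biUnion_card_iff_exists_injective]
      intro s
      have := Finset.card_mul_le_card_mul (s := s)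
        (t := s.biUnion (fun x => univ.filter (fun y => E x y))) E (m := T.card + 1)
        (n := T.card + 1)
        (by
          intro x hx
          rw [← hn1 x]
          apply Finset.card_le_card
          intro y hy
          rw [Finset.mem_bipartiteAbove]
          refine ⟨?_, (Finset.mem_filter.mp hy).2⟩
          rw [Finset.mem_biUnion]
          exact ⟨x, hx, hy⟩)
        (by
          intro y _
          rw [← hn2 y]
          apply Finset.card_le_card
          intro x hx
          rw [Finset.mem_bipartiteBelow] at hx
          rw [Finset.mem_filter]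
          exact ⟨Finset.mem_univ _, hx.2⟩)
      exact Nat.le_of_mul_le_mul_right this (Nat.succ_pos _)
    obtain ⟨f, hfinj, hfE⟩ := hall
    have hfE' : ∀ x, E x (f x) := fun x => (Finset.mem_filter.mp (hfE x)).2
    have hcardXY : Fintype.card X = Fintype.card Y := by
      apply le_antisymm (Fintype.card_le_of_injective f hfinj)
      have := Finset.card_mul_le_card_mul' (s := (univ : Finset X))
        (t := (univ : Finset Y)) E (m := T.card + 1)
        (n := T.card + 1)
        (by
          intro y _
          rw [← hn2 y]
          apply Finset.card_le_card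
          intro x hx
          rw [Finset.mem_bipartiteBelow]
          exact ⟨Finset.mem_univ _, (Finset.mem_filter.mp hx).2⟩)
        (by
          intro x _
          rw [← hn1 x]
          apply Finset.card_le_card
          intro y hy
          rw [Finset.mem_bipartiteAbove] at hy
          rw [Finset.mem_filter]
          exact ⟨Finset.mem_univ _, hy.2⟩)
      exact Nat.le_of_mul_le_mul_right this (Nat.succ_pos _)
    have hfbij : Function.Bijective f := (Fintype.bijective_iff_injective_and_card f).mpr
      ⟨hfinj, hcardXY⟩
    obtain ⟨φ, hφ1, hφ2, hφ3, hφ4⟩ := ih (fun x y => E x y ∧ f x ≠ y)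
      (by
        intro x
        have : {y | E x y ∧ f x ≠ y} = {y | E x y} \ {f x} := by
          ext y
          simp only [Set.mem_ofPred_eq, Set.mem_sdiff, Set.mem_singleton_iff, ne_eq, eq_comm]
        rw [this, Set.ncard_sdiff_singleton_of_mem (by exact hfE' x), h1 x, hcard]
        rfl)
      (by
        intro y
        obtain ⟨x₀, hx₀⟩ := hfbij.2 y
        have : {x | E x y ∧ f x ≠ y} = {x | E x y} \ {x₀} := by
          ext x
          simp only [Set.mem_ofPred_eq, Set.mem_sdiff, Set.mem_singleton_iff, ne_eq]
          constructor
          · rintro ⟨h, h'⟩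
            exact ⟨h, fun e => h' (by rw [e, hx₀])⟩
          · rintro ⟨h, h'⟩
            exact ⟨h, fun e => h' (hfinj (by rw [e, hx₀]))⟩
        rw [this, Set.ncard_sdiff_singleton_of_mem (by
          have := hfE' x₀
          rw [hx₀] at this
          exact this), h2 y, hcard]
        rfl)
    refine ⟨fun s => if s = t then f else φ s, ?_, ?_, ?_, ?_⟩
    · intro s hs
      by_cases hst : s = t
      · simp only [hst, if_true]; exact hfbij
      · simp only [if_neg hst]
        exact hφ1 s (Finset.mem_of_mem_insert_of_ne hs hst)
    · intro s hs x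
      by_cases hst : s = t
      · simp only [hst, if_true]; exact hfE' x
      · simp only [if_neg hst]
        exact (hφ2 s (Finset.mem_of_mem_insert_of_ne hs hst) x).1
    · intro s hs s' hs' hss x
      by_cases hst : s = t
      · have hst' : s' ≠ t := fun h => hss (hst.trans h.symm)
        simp only [hst, if_true, if_neg hst']
        exact (hφ2 s' (Finset.mem_of_mem_insert_of_ne hs' hst') x).2
      · by_cases hst' : s' = t
        · simp only [hst', if_true, if_neg hst]
          exact (hφ2 s (Finset.mem_of_mem_insert_of_ne hs hst) x).2.symm
        · simp only [if_neg hst, if_neg hst']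
          exact hφ3 s (Finset.mem_of_mem_insert_of_ne hs hst) s'
            (Finset.mem_of_mem_insert_of_ne hs' hst') hss x
    · intro x y hxy
      by_cases hfx : f x = y
      · exact ⟨t, Finset.mem_insert_self t T, by simpa using hfx⟩
      · obtain ⟨s, hs, hsx⟩ := hφ4 x y ⟨hxy, hfx⟩
        have hst : s ≠ t := fun h => ht (h ▸ hs)
        exact ⟨s, Finset.mem_insert_of_mem hs, by simpa [hst] using hsx⟩

end Pool.Agent.Lib_MP_ce52b8_co
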