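import Pool.Agent.Lib_MP_ce52b8_co.Finite
import Pool.Agent.Lib_MP_ce52b8_co.HallDecomp

set_option autoImplicit false

namespace Pool.Agent.Lib_MP_ce52b8_co

open Finset

variable {V : Type*}

theorem matchings_step (G : SimpleGraph V) (β : V → ℤ) {I : Type*} [Fintype I] [DecidableEq I]
    (σ : I → ℤ → ℤ) (hσ : ∀ t n, σ t (σ t n) = n)
    (hfib : ∀ n, (β ⁻¹' {n}).Finite) (hfne : ∀ n, (β ⁻¹' {n}).Nonempty)
    (hdeg : ∀ v n', n' ≠ β v → {w | G.Adj v w ∧ β w = n'}.ncard =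
      (univ.filter (fun t => σ t (β v) = n')).card) (n n' : ℤ) (hnn : n < n') :
    ∃ φ ψ : I → V → V, (∀ t, σ t n = n' →
        (∀ v, β v = n → β (φ t v) = n' ∧ G.Adj v (φ t v) ∧ ψ t (φ t v) = v) ∧
        (∀ w, β w = n' → β (ψ t w) = n ∧ φ t (ψ t w) = w) ∧
        (∀ t', σ t' n = n' → t ≠ t' → ∀ v, β v = n → φ t v ≠ φ t' v)) ∧
      (∀ v w, β v = n → β w = n' → G.Adj v w → ∃ t, σ t n = n' ∧ φ t v = w) := by
  classical
  let X := {v : V // β v = n}
  let Y := {v : V // β v = n'}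
  have hXfin : Finite X := (hfib n).to_subtype
  have hYfin : Finite Y := (hfib n').to_subtype
  have hXne : Nonempty X := by
    obtain ⟨v, hv⟩ := hfne n
    exact ⟨⟨v, hv⟩⟩
  have hYne : Nonempty Y := by
    obtain ⟨v, hv⟩ := hfne n'
    exact ⟨⟨v, hv⟩⟩
  let T : Finset I := univ.filter (fun t => σ t n = n')
  have hT' : univ.filter (fun t => σ t n' = n) = T := by
    ext t
    simp only [T, Finset.mem_filter, Finset.mem_univ, true_and]
    constructor
    · intro h; rw [← h, hσ]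
    · intro h; rw [← h, hσ]
  obtain ⟨φ₀, h1, h2, h3, h4⟩ := hall_decomp T (fun (x : X) (y : Y) => G.Adj x.1 y.1)
    (by
      intro x
      have hx : n' ≠ β x.1 := by rw [x.2]; exact hnn.ne'
      have h := hdeg x.1 n' hx
      rw [x.2] at h
      rw [← h]
      have him : {w | G.Adj x.1 w ∧ β w = n'} =
          Subtype.val '' {y : Y | G.Adj x.1 y.1} := by
        ext w
        constructor
        · rintro ⟨ha, hb⟩
          exact ⟨⟨w, hb⟩, ha, rfl⟩
        · rintro ⟨y, hy, rfl⟩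
          exact ⟨hy, y.2⟩
      rw [him, Set.ncard_image_of_injective _ Subtype.val_injective])
    (by
      intro y
      have hy : n ≠ β y.1 := by rw [y.2]; exact hnn.ne
      have h := hdeg y.1 n hy
      rw [y.2, hT'] at h
      rw [← h]
      have him : {w | G.Adj y.1 w ∧ β w = n} =
          Subtype.val '' {x : X | G.Adj x.1 y.1} := by
        ext w
        constructor
        · rintro ⟨ha, hb⟩
          exact ⟨⟨w, hb⟩, ha.symm, rfl⟩
        · rintro ⟨x, hx, rfl⟩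
          exact ⟨SimpleGraph.Adj.symm hx, x.2⟩
      rw [him, Set.ncard_image_of_injective _ Subtype.val_injective])
  let φ : I → V → V := fun t v => if h : β v = n then (φ₀ t ⟨v, h⟩).1 else v
  let ψ : I → V → V := fun t w => if h : β w = n' then
    (Function.invFun (φ₀ t) ⟨w, h⟩).1 else w
  have hφ : ∀ t v (h : β v = n), φ t v = (φ₀ t ⟨v, h⟩).1 := fun t v h => by
    simp only [φ, dif_pos h]
  have hψ : ∀ t w (h : β w = n'), ψ t w = (Function.invFun (φ₀ t) ⟨w, h⟩).1 := fun t w h => by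
    simp only [ψ, dif_pos h]
  refine ⟨φ, ψ, ?_, ?_⟩
  · intro t ht
    have htT : t ∈ T := by simp [T, ht]
    refine ⟨?_, ?_, ?_⟩
    · intro v hv
      rw [hφ t v hv]
      refine ⟨(φ₀ t ⟨v, hv⟩).2, h2 t htT ⟨v, hv⟩, ?_⟩
      rw [hψ t _ (φ₀ t ⟨v, hv⟩).2]
      have := Function.leftInverse_invFun (h1 t htT).1 ⟨v, hv⟩
      exact congrArg Subtype.val this
    · intro w hw
      rw [hψ t w hw]
      refine ⟨(Function.invFun (φ₀ t) ⟨w, hw⟩).2, ?_⟩
      rw [hφ t _ (Function.invFun (φ₀ t) ⟨w, hw⟩).2]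
      have := Function.rightInverse_invFun (h1 t htT).2 ⟨w, hw⟩
      exact congrArg Subtype.val this
    · intro t' ht' htt' v hv
      rw [hφ t v hv, hφ t' v hv]
      intro h
      exact h3 t htT t' (by simp [T, ht']) htt' ⟨v, hv⟩ (Subtype.ext h)
  · intro v w hv hw hvw
    obtain ⟨t, ht, htv⟩ := h4 ⟨v, hv⟩ ⟨w, hw⟩ hvw
    refine ⟨t, (Finset.mem_filter.mp ht).2, ?_⟩
    rw [hφ t v hv, htv]

theorem exists_matchings (G : SimpleGraph V) (β : V → ℤ) {I : Type*} [Fintype I] [DecidableEq I]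
    (σ : I → ℤ → ℤ) (hσ : ∀ t n, σ t (σ t n) = n) (hσ' : ∀ t n, σ t n ≠ n)
    (hfib : ∀ n, (β ⁻¹' {n}).Finite) (hfne : ∀ n, (β ⁻¹' {n}).Nonempty)
    (hdeg : ∀ v n', n' ≠ β v → {w | G.Adj v w ∧ β w = n'}.ncard =
      (univ.filter (fun t => σ t (β v) = n')).card) :
    ∃ μ : I → V → V, (∀ t v, μ t (μ t v) = v) ∧ (∀ t v, G.Adj v (μ t v)) ∧
      (∀ t v, β (μ t v) = σ t (β v)) ∧ (∀ t t' v, t ≠ t' → μ t v ≠ μ t' v) ∧
      (∀ v w, G.Adj v w → β w ≠ β v → ∃ t, μ t v = w) := by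
  classical
  have : Nonempty (I → V → V) := ⟨fun _ v => v⟩
  have step := matchings_step G β σ hσ hfib hfne hdeg
  choose! φ ψ h using step
  let μ : I → V → V := fun t v => if β v < σ t (β v) then φ (β v) (σ t (β v)) t v
    else ψ (σ t (β v)) (β v) t v
  have hμ1 : ∀ t v, β v < σ t (β v) → μ t v = φ (β v) (σ t (β v)) t v := fun t v hh => by
    simp only [μ, if_pos hh]
  have hμ2 : ∀ t v, σ t (β v) < β v → μ t v = ψ (σ t (β v)) (β v) t v := fun t v hh => by
    simp only [μ, if_neg (not_lt.mpr hh.le)]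
  have hβ : ∀ t v, β (μ t v) = σ t (β v) := by
    intro t v
    rcases lt_or_gt_of_ne (hσ' t (β v)) with hlt | hlt
    · rw [hμ2 t v hlt]
      exact (((h _ _ hlt).1 t (hσ t _)).2.1 v rfl).1
    · rw [hμ1 t v hlt]
      exact (((h _ _ hlt).1 t rfl).1 v rfl).1
  have hinv : ∀ t v, μ t (μ t v) = v := by
    intro t v
    have hb := hβ t v
    rcases lt_or_gt_of_ne (hσ' t (β v)) with hlt | hlt
    · have h3 : β (μ t v) < σ t (β (μ t v)) := by rw [hb, hσ]; exact hlt
      rw [hμ1 t _ h3, hb, hσ]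
      rw [hμ2 t v hlt]
      exact (((h _ _ hlt).1 t (hσ t _)).2.1 v rfl).2
    · have h3 : σ t (β (μ t v)) < β (μ t v) := by rw [hb, hσ]; exact hlt
      rw [hμ2 t _ h3, hb, hσ]
      rw [hμ1 t v hlt]
      exact (((h _ _ hlt).1 t rfl).1 v rfl).2.2
  refine ⟨μ, hinv, ?_, hβ, ?_, ?_⟩
  · intro t v
    rcases lt_or_gt_of_ne (hσ' t (β v)) with hlt | hlt
    · have hb := hβ t v
      have h3 : β (μ t v) < σ t (β (μ t v)) := by rw [hb, hσ]; exact hlt
      have h4 := hinv t v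
      rw [hμ1 t _ h3] at h4
      have h5 := (((h _ _ h3).1 t rfl).1 (μ t v) rfl).2.1
      rw [h4] at h5
      exact h5.symm
    · rw [hμ1 t v hlt]
      exact (((h _ _ hlt).1 t rfl).1 v rfl).2.1
  · intro t t' v htt' heq
    have hb := hβ t v
    have hb' := hβ t' v
    rw [heq, hb'] at hb
    rcases lt_or_gt_of_ne (hσ' t (β v)) with hlt | hlt
    · have e1 : μ t v = ψ (σ t (β v)) (β v) t v := hμ2 t v hlt
      have e2 : μ t' v = ψ (σ t (β v)) (β v) t' v := by
        rw [hμ2 t' v (by rw [hb]; exact hlt), hb]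
      have c1 := (((h _ _ hlt).1 t (hσ t _)).2.1 v rfl).2
      have c2 := (((h _ _ hlt).1 t' (by rw [← hb, hσ])).2.1 v rfl).2
      rw [← e1] at c1
      rw [← e2, ← heq] at c2
      have c3 := ((h _ _ hlt).1 t (hσ t _)).2.2 t' (by rw [← hb, hσ]) htt' (μ t v) (hβ t v)
      exact c3 (c1.trans c2.symm)
    · have e1 : μ t v = φ (β v) (σ t (β v)) t v := hμ1 t v hlt
      have e2 : μ t' v = φ (β v) (σ t (β v)) t' v := by
        rw [hμ1 t' v (by rw [hb]; exact hlt), hb]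
      exact ((h _ _ hlt).1 t rfl).2.2 t' hb htt' v rfl (by rw [← e1, ← e2, heq])
  · intro v w hvw hne
    rcases lt_or_gt_of_ne hne with hlt | hlt
    · obtain ⟨t, ht, htw⟩ := (h _ _ hlt).2 w v rfl rfl hvw.symm
      refine ⟨t, ?_⟩
      have e : μ t w = v := by
        rw [hμ1 t w (by rw [ht]; exact hlt), ht, htw]
      rw [← e, hinv]
    · obtain ⟨t, ht, htw⟩ := (h _ _ hlt).2 v w rfl rfl hvw
      refine ⟨t, ?_⟩
      rw [hμ1 t v (by rw [ht]; exact hlt), ht, htw]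

/-- The graph inside the blocks together with two of the matchings. -/
def chainGraph (G : SimpleGraph V) (β : V → ℤ) (m₁ m₂ : V → V) (h₁ : ∀ v, m₁ (m₁ v) = v)
    (h₂ : ∀ v, m₂ (m₂ v) = v) : SimpleGraph V where
  Adj v w := G.Adj v w ∧ (β v = β w ∨ m₁ v = w ∨ m₂ v = w)
  symm := ⟨by
    rintro v w ⟨h, h'⟩
    refine ⟨h.symm, ?_⟩
    rcases h' with h' | h' | h'
    · exact Or.inl h'.symm
    · exact Or.inr (Or.inl (by rw [← h', h₁]))
    · exact Or.inr (Or.inr (by rw [← h', h₂]))⟩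
  loopless := ⟨by
    rintro v ⟨h, _⟩
    exact G.loopless.irrefl v h⟩

theorem chain_colouring (G : SimpleGraph V) (β : V → ℤ)
    (hfib : ∀ n, (β ⁻¹' {n}).Finite) (a₀ : ℕ)
    (hdeg0 : ∀ v, {w | G.Adj v w ∧ β w = β v}.ncard ≤ a₀) (m₁ m₂ : V → V)
    (h₁ : ∀ v, m₁ (m₁ v) = v) (h₂ : ∀ v, m₂ (m₂ v) = v) (s₁ s₂ : ℤ → ℤ)
    (hs₁ : ∀ v, β (m₁ v) = s₁ (β v)) (hs₂ : ∀ v, β (m₂ v) = s₂ (β v))
    (η : ℤ → ℤ) (hη : ∀ n, η n < η (s₁ n) ∨ η n < η (s₂ n)) :
    (chainGraph G β m₁ m₂ h₁ h₂).lineGraph.Colorable (a₀ + 2) := by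
  classical
  apply infinite_colouring _ _ (by omega)
  intro S hS
  obtain ⟨x, hxS, hxmax⟩ := Finset.exists_max_image S (fun v => η (β v)) hS
  -- general bound
  have hfin0 : ∀ y, {w | G.Adj y w ∧ β w = β y}.Finite := fun y =>
    (hfib (β y)).subset (fun w hw => hw.2)
  have hgen : ∀ y, ({w ∈ (S : Set V) | (chainGraph G β m₁ m₂ h₁ h₂).Adj y w}).ncard ≤ a₀ + 2 := by
    intro y
    have hsub : {w ∈ (S : Set V) | (chainGraph G β m₁ m₂ h₁ h₂).Adj y w} ⊆
        {w | G.Adj y w ∧ β w = β y} ∪ {m₁ y, m₂ y} := by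
      rintro w ⟨_, hw, h | h | h⟩
      · exact Or.inl ⟨hw, h.symm⟩
      · exact Or.inr (Or.inl h.symm)
      · exact Or.inr (Or.inr h.symm)
    calc _ ≤ ({w | G.Adj y w ∧ β w = β y} ∪ {m₁ y, m₂ y}).ncard :=
          Set.ncard_le_ncard hsub ((hfin0 y).union (Set.toFinite _))
      _ ≤ {w | G.Adj y w ∧ β w = β y}.ncard + ({m₁ y, m₂ y} : Set V).ncard :=
          Set.ncard_union_le _ _
      _ ≤ a₀ + 2 := add_le_add (hdeg0 y) (by
          have h := Set.ncard_insert_le (m₁ y) ({m₂ y} : Set V)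
          rw [Set.ncard_singleton] at h
          exact h)
  -- sharper bound in the top block
  have main : ∀ (p q : V → V) (s : ℤ → ℤ), (∀ v, β (q v) = s (β v)) → η (β x) < η (s (β x)) →
      (∀ y w, (chainGraph G β m₁ m₂ h₁ h₂).Adj y w → β w = β y ∨ p y = w ∨ q y = w) →
      ∃ x ∈ S, ∃ u₀ : V,
      ({w ∈ (S : Set V) | (chainGraph G β m₁ m₂ h₁ h₂).Adj x w}).ncard ≤ a₀ + 2 ∧
      ∀ y ∈ S, (chainGraph G β m₁ m₂ h₁ h₂).Adj x y →
        (y ≠ u₀ → ({w ∈ (S : Set V) | (chainGraph G β m₁ m₂ h₁ h₂).Adj y w}).ncard + 1 ≤ a₀ + 2) ∧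
        ({w ∈ (S : Set V) | (chainGraph G β m₁ m₂ h₁ h₂).Adj y w}).ncard ≤ a₀ + 2 := by
    intro p q s hq hlt hadj
    have hout : ∀ y, β y = β x → q y ∉ S := by
      intro y hy hqy
      have := hxmax (q y) hqy
      simp only [hq, hy] at this
      omega
    refine ⟨x, hxS, p x, hgen x, ?_⟩
    intro y hyS hxy
    refine ⟨?_, hgen y⟩
    intro hyp
    have hyx : β y = β x := by
      rcases hadj x y hxy with h | h | h
      · exact h
      · exact absurd h.symm hyp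
      · exact absurd (h ▸ hyS) (hout x rfl)
    have hsub : {w ∈ (S : Set V) | (chainGraph G β m₁ m₂ h₁ h₂).Adj y w} ⊆
        {w | G.Adj y w ∧ β w = β y} ∪ {p y} := by
      rintro w ⟨hwS, hw⟩
      rcases hadj y w hw with h | h | h
      · exact Or.inl ⟨hw.1, h⟩
      · exact Or.inr h.symm
      · exact absurd (h ▸ hwS) (hout y hyx)
    have : ({w ∈ (S : Set V) | (chainGraph G β m₁ m₂ h₁ h₂).Adj y w}).ncard ≤ a₀ + 1 := by
      calc _ ≤ ({w | G.Adj y w ∧ β w = β y} ∪ {p y}).ncard :=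
            Set.ncard_le_ncard hsub ((hfin0 y).union (Set.toFinite _))
        _ ≤ {w | G.Adj y w ∧ β w = β y}.ncard + ({p y} : Set V).ncard :=
            Set.ncard_union_le _ _
        _ ≤ a₀ + 1 := add_le_add (hdeg0 y) (Set.ncard_singleton _).le
    omega
  rcases hη (β x) with hlt | hlt
  · apply main m₂ m₁ s₁ hs₁ hlt
    rintro y w ⟨_, h | h | h⟩
    · exact Or.inl h.symm
    · exact Or.inr (Or.inr h)
    · exact Or.inr (Or.inl h)
  · apply main m₁ m₂ s₂ hs₂ hlt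
    rintro y w ⟨_, h | h | h⟩
    · exact Or.inl h.symm
    · exact Or.inr (Or.inl h)
    · exact Or.inr (Or.inr h)

/-- The block colouring theorem. -/
theorem block_colouring (G : SimpleGraph V) (β : V → ℤ) {I : Type*} [Fintype I] [DecidableEq I]
    (σ : I → ℤ → ℤ) (hσ : ∀ t n, σ t (σ t n) = n) (hσ' : ∀ t n, σ t n ≠ n)
    (hfib : ∀ n, (β ⁻¹' {n}).Finite) (hfne : ∀ n, (β ⁻¹' {n}).Nonempty)
    (hdeg : ∀ v n', n' ≠ β v → {w | G.Adj v w ∧ β w = n'}.ncard =
      (univ.filter (fun t => σ t (β v) = n')).card) (a₀ : ℕ)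
    (hdeg0 : ∀ v, {w | G.Adj v w ∧ β w = β v}.ncard ≤ a₀) (t₁ t₂ : I) (h12 : t₁ ≠ t₂)
    (η : ℤ → ℤ) (hη : ∀ n, η n < η (σ t₁ n) ∨ η n < η (σ t₂ n)) :
    G.lineGraph.Colorable (a₀ + Fintype.card I) := by
  classical
  obtain ⟨μ, hinv, hadj, hβ, hdis, hcov⟩ := exists_matchings G β σ hσ hσ' hfib hfne hdeg
  set H := chainGraph G β (μ t₁) (μ t₂) (hinv t₁) (hinv t₂) with hH
  have hcol := chain_colouring G β hfib a₀ hdeg0 (μ t₁) (μ t₂) (hinv t₁) (hinv t₂) (σ t₁) (σ t₂)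
    (hβ t₁) (hβ t₂) η hη
  rw [← hH] at hcol
  obtain ⟨c⟩ := hcol
  have hlab : ∀ e : G.edgeSet, (e : Sym2 V) ∉ H.edgeSet → ∃ t : {t : I // t ≠ t₁ ∧ t ≠ t₂},
      ∀ u w, (e : Sym2 V) = s(u, w) → μ t.1 u = w := by
    rintro ⟨e, he⟩ heH
    induction e using Sym2.ind with
    | _ u w =>
      have hadj' : G.Adj u w := he
      have hnot : ¬ (β u = β w ∨ μ t₁ u = w ∨ μ t₂ u = w) := fun h => heH ⟨hadj', h⟩
      push Not at hnot
      obtain ⟨t, ht⟩ := hcov u w hadj' (fun h => hnot.1 h.symm)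
      refine ⟨⟨t, ?_, ?_⟩, ?_⟩
      · rintro rfl; exact hnot.2.1 ht
      · rintro rfl; exact hnot.2.2 ht
      · intro u' w' h
        rw [Sym2.eq_iff] at h
        rcases h with ⟨rfl, rfl⟩ | ⟨rfl, rfl⟩
        · exact ht
        · have h5 := hinv t u
          rw [ht] at h5
          exact h5
  choose lab hlab' using hlab
  let col : G.lineGraph.Coloring (Fin (a₀ + 2) ⊕ {t : I // t ≠ t₁ ∧ t ≠ t₂}) :=
    SimpleGraph.Coloring.mk
      (fun e => if h : (e : Sym2 V) ∈ H.edgeSet then Sum.inl (c ⟨e, h⟩) else Sum.inr (lab e h))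
      (by
        intro e e' hee
        rw [SimpleGraph.lineGraph_adj_iff_exists] at hee
        obtain ⟨hne, v, hv, hv'⟩ := hee
        by_cases h : (e : Sym2 V) ∈ H.edgeSet
        · by_cases h' : (e' : Sym2 V) ∈ H.edgeSet
          · simp only [h, h', dif_pos]
            intro heq
            have heq' := Sum.inl_injective heq
            have hadjH : H.lineGraph.Adj ⟨e, h⟩ ⟨e', h'⟩ := by
              rw [SimpleGraph.lineGraph_adj_iff_exists]
              exact ⟨fun e1 => hne (Subtype.ext (Subtype.mk.inj e1)), v, hv, hv'⟩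
            exact c.valid hadjH heq'
          · simp [h, h']
        · by_cases h' : (e' : Sym2 V) ∈ H.edgeSet
          · simp [h, h']
          · simp only [h, h', dif_neg, not_false_eq_true]
            intro heq
            have heq' := Sum.inr_injective heq
            obtain ⟨w, hw⟩ := hv
            obtain ⟨w', hw'⟩ := hv'
            have h1 := hlab' e h v w hw
            have h2 := hlab' e' h' v w' hw'
            rw [heq', h2] at h1
            apply hne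
            apply Subtype.ext
            rw [hw, hw', h1])
  have hcard : Fintype.card (Fin (a₀ + 2) ⊕ {t : I // t ≠ t₁ ∧ t ≠ t₂}) = a₀ + Fintype.card I := by
    rw [Fintype.card_sum, Fintype.card_fin, Fintype.card_subtype]
    have h3 : (univ.filter (fun t : I => t ≠ t₁ ∧ t ≠ t₂)) = (univ.erase t₁).erase t₂ := by
      ext t
      simp only [Finset.mem_filter, Finset.mem_univ, true_and, Finset.mem_erase, and_true]
      tauto
    rw [h3, Finset.card_erase_of_mem (by simp [h12.symm]), Finset.card_erase_of_mem (by simp),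
      Finset.card_univ]
    have : 2 ≤ Fintype.card I := by
      have := Finset.card_le_univ ({t₁, t₂} : Finset I)
      rw [Finset.card_pair h12] at this
      exact this
    omega
  rw [← hcard]
  exact col.colorable

end Pool.Agent.Lib_MP_ce52b8_co
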