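import Mathlib

set_option autoImplicit false

namespace Pool.Agent.Lib_MP_ce52b8_co

variable {V : Type*}

/-- `A` and `B` differ in finitely many elements. -/
def Comm (A B : Set V) : Prop := (A \ B).Finite ∧ (B \ A).Finite

/-- The relative index of two commensurable sets. -/
noncomputable def ri (A B : Set V) : ℤ := ((A \ B).ncard : ℤ) - ((B \ A).ncard : ℤ)

theorem Comm.refl (A : Set V) : Comm A A := by
  constructor <;> simp

theorem Comm.symm {A B : Set V} (h : Comm A B) : Comm B A := ⟨h.2, h.1⟩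

theorem Comm.trans {A B C : Set V} (h : Comm A B) (h' : Comm B C) : Comm A C := by
  constructor
  · apply (h.1.union h'.1).subset
    intro x hx
    by_cases hB : x ∈ B
    · exact Or.inr ⟨hB, hx.2⟩
    · exact Or.inl ⟨hx.1, hB⟩
  · apply (h.2.union h'.2).subset
    intro x hx
    by_cases hB : x ∈ B
    · exact Or.inl ⟨hB, hx.2⟩
    · exact Or.inr ⟨hx.1, hB⟩

theorem Comm.compl {A B : Set V} (h : Comm A B) : Comm Aᶜ Bᶜ := by
  constructor
  · apply h.2.subset
    intro x hx
    exact ⟨not_not.mp hx.2, hx.1⟩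
  · apply h.1.subset
    intro x hx
    exact ⟨not_not.mp hx.2, hx.1⟩

theorem Comm.image {A B : Set V} (h : Comm A B) (f : Equiv.Perm V) : Comm (f '' A) (f '' B) := by
  constructor
  · rw [← Set.image_sdiff f.injective]
    exact h.1.image f
  · rw [← Set.image_sdiff f.injective]
    exact h.2.image f

theorem Comm.infinite {A B : Set V} (h : Comm A B) (hA : A.Infinite) : B.Infinite := by
  intro hB
  apply hA
  apply (h.1.union hB).subset
  intro x hx
  by_cases hxB : x ∈ B
  · exact Or.inr hxB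
  · exact Or.inl ⟨hx, hxB⟩

/-- Commensurable sets cannot be disjoint when infinite. -/
theorem Comm.not_subset_compl {A B : Set V} (h : Comm A B) (hA : A.Infinite) : ¬ A ⊆ Bᶜ := by
  intro hsub
  apply hA
  apply h.1.subset
  intro x hx
  exact ⟨hx, hsub hx⟩

theorem ri_self (A : Set V) : ri A A = 0 := by simp [ri]

theorem ri_symm (A B : Set V) : ri B A = - ri A B := by simp [ri]

theorem ri_image (A B : Set V) (f : Equiv.Perm V) : ri (f '' A) (f '' B) = ri A B := by
  unfold ri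
  rw [← Set.image_sdiff f.injective, ← Set.image_sdiff f.injective,
    Set.ncard_image_of_injective _ f.injective, Set.ncard_image_of_injective _ f.injective]

theorem ri_compl (A B : Set V) : ri Aᶜ Bᶜ = - ri A B := by
  unfold ri
  have h1 : Aᶜ \ Bᶜ = B \ A := by
    ext x; simp only [Set.mem_sdiff, Set.mem_compl_iff, not_not]; tauto
  have h2 : Bᶜ \ Aᶜ = A \ B := by
    ext x; simp only [Set.mem_sdiff, Set.mem_compl_iff, not_not]; tauto
  rw [h1, h2]; ring

theorem ri_eq {A B L : Set V} (hL : L.Finite) (h1 : A \ B ⊆ L) (h2 : B \ A ⊆ L) :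
    ri A B = ((A ∩ L).ncard : ℤ) - ((B ∩ L).ncard : ℤ) := by
  have f1 : (A ∩ B ∩ L).Finite := hL.subset (fun x hx => hx.2)
  have f2 : (A \ B).Finite := hL.subset h1
  have f3 : (B \ A).Finite := hL.subset h2
  have e1 : (A ∩ L).ncard = (A ∩ B ∩ L).ncard + (A \ B).ncard := by
    have hd : Disjoint (A ∩ B ∩ L) (A \ B) := by
      rw [Set.disjoint_left]
      rintro x ⟨⟨_, hb⟩, _⟩ ⟨_, hb'⟩
      exact hb' hb
    rw [← Set.ncard_union_eq hd f1 f2]
    congr 1
    ext x
    constructor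
    · rintro ⟨ha, hl⟩
      by_cases hb : x ∈ B
      · exact Or.inl ⟨⟨ha, hb⟩, hl⟩
      · exact Or.inr ⟨ha, hb⟩
    · rintro (⟨⟨ha, hb⟩, hl⟩ | ⟨ha, hb⟩)
      · exact ⟨ha, hl⟩
      · exact ⟨ha, h1 ⟨ha, hb⟩⟩
  have e2 : (B ∩ L).ncard = (A ∩ B ∩ L).ncard + (B \ A).ncard := by
    have hd : Disjoint (A ∩ B ∩ L) (B \ A) := by
      rw [Set.disjoint_left]
      rintro x ⟨⟨ha, _⟩, _⟩ ⟨_, ha'⟩
      exact ha' ha
    rw [← Set.ncard_union_eq hd f1 f3]
    congr 1
    ext x
    constructor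
    · rintro ⟨hb, hl⟩
      by_cases ha : x ∈ A
      · exact Or.inl ⟨⟨ha, hb⟩, hl⟩
      · exact Or.inr ⟨hb, ha⟩
    · rintro (⟨⟨ha, hb⟩, hl⟩ | ⟨hb, ha⟩)
      · exact ⟨hb, hl⟩
      · exact ⟨hb, h2 ⟨hb, ha⟩⟩
  unfold ri
  rw [e1, e2]; push_cast; ring

theorem ri_add {A B C : Set V} (h : Comm A B) (h' : Comm B C) : ri A C = ri A B + ri B C := by
  have h'' := h.trans h'
  set L : Set V := (A \ B) ∪ (B \ A) ∪ ((B \ C) ∪ (C \ B)) ∪ ((A \ C) ∪ (C \ A)) with hL
  have hLfin : L.Finite :=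
    ((h.1.union h.2).union (h'.1.union h'.2)).union (h''.1.union h''.2)
  rw [ri_eq hLfin (A := A) (B := B) (fun x hx => Or.inl (Or.inl (Or.inl hx)))
      (fun x hx => Or.inl (Or.inl (Or.inr hx))),
    ri_eq hLfin (A := B) (B := C) (fun x hx => Or.inl (Or.inr (Or.inl hx)))
      (fun x hx => Or.inl (Or.inr (Or.inr hx))),
    ri_eq hLfin (A := A) (B := C) (fun x hx => Or.inr (Or.inl hx))
      (fun x hx => Or.inr (Or.inr hx))]
  ring

theorem ri_pos {A B : Set V} (h : Comm A B) (hsub : B ⊆ A) (hne : (A \ B).Nonempty) :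
    0 < ri A B := by
  unfold ri
  have h1 : B \ A = ∅ := by
    rw [Set.sdiff_eq_empty]; exact hsub
  have h2 : 0 < (A \ B).ncard := (Set.ncard_pos h.1).mpr hne
  rw [h1, Set.ncard_empty]
  push_cast
  omega

/-- The index of a permutation with respect to a commensurated set does not depend on the
set in its commensurability class. -/
theorem ri_perm_eq {A B : Set V} (h : Comm A B) (f : Equiv.Perm V) (hA : Comm A (f '' A)) :
    ri A (f '' A) = ri B (f '' B) := by
  have hfAB : Comm (f '' A) (f '' B) := h.image f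
  have hBfA : Comm B (f '' A) := h.symm.trans hA
  have h1 : ri B (f '' B) = ri B (f '' A) + ri (f '' A) (f '' B) := ri_add hBfA hfAB
  have h2 : ri B (f '' A) = ri B A + ri A (f '' A) := ri_add h.symm hA
  rw [h1, h2, ri_image, ri_symm A B]
  ring

end Pool.Agent.Lib_MP_ce52b8_co
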