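import Pool.Agent.Lib_MP_ce52b8_co.Heights

set_option autoImplicit false

namespace Pool.Agent.Lib_MP_ce52b8_co

variable {V : Type*}

/-- One step outside `K`. -/
def Step (G : SimpleGraph V) (K : Set V) (a b : V) : Prop := G.Adj a b ∧ a ∉ K ∧ b ∉ K

/-- The component of `w` in the complement of `K` (just `{w}` if `w ∈ K`). -/
def comp (G : SimpleGraph V) (K : Set V) (w : V) : Set V :=
  {x | Relation.ReflTransGen (Step G K) w x}

/-- `K` together with the finite components of its complement. -/
def Fill (G : SimpleGraph V) (K : Set V) : Set V := {w | (comp G K w).Finite}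

/-- Balls. -/
def bl (G : SimpleGraph V) (v : V) : ℕ → Set V
  | 0 => {v}
  | r + 1 => bl G v r ∪ {y | ∃ x ∈ bl G v r, G.Adj x y}

section

variable {G : SimpleGraph V}

theorem Step.symm {K : Set V} {a b : V} (h : Step G K a b) : Step G K b a :=
  ⟨h.1.symm, h.2.2, h.2.1⟩

theorem mem_comp_self (K : Set V) (w : V) : w ∈ comp G K w := Relation.ReflTransGen.refl

theorem comp_symm {K : Set V} {w x : V} (h : x ∈ comp G K w) : w ∈ comp G K x := by
  have key : ∀ x, Relation.ReflTransGen (Step G K) w x → Relation.ReflTransGen (Step G K) x w := by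
    intro x hx
    induction hx with
    | refl => exact Relation.ReflTransGen.refl
    | tail _ hst ih => exact Relation.ReflTransGen.head hst.symm ih
  exact key x h

theorem comp_eq {K : Set V} {w x : V} (h : x ∈ comp G K w) : comp G K x = comp G K w := by
  ext y
  constructor
  · intro hy
    exact Relation.ReflTransGen.trans h hy
  · intro hy
    exact Relation.ReflTransGen.trans (comp_symm h) hy

theorem comp_eq_or_disjoint (K : Set V) (w x : V) :
    comp G K w = comp G K x ∨ ∀ y ∈ comp G K w, y ∉ comp G K x := by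
  by_cases h : ∃ y ∈ comp G K w, y ∈ comp G K x
  · obtain ⟨y, h1, h2⟩ := h
    left
    rw [← comp_eq h1, comp_eq h2]
  · right
    intro y h1 h2
    exact h ⟨y, h1, h2⟩

theorem comp_of_mem {K : Set V} {w : V} (hw : w ∈ K) : comp G K w = {w} := by
  ext x
  constructor
  · intro h
    have h : Relation.ReflTransGen (Step G K) w x := h
    rcases Relation.ReflTransGen.cases_head h with h1 | ⟨c, hc, _⟩
    · exact h1.symm
    · exact absurd hw hc.2.1
  · rintro rfl
    exact mem_comp_self K _

theorem notMem_of_infinite {K : Set V} {w : V} (h : (comp G K w).Infinite) : w ∉ K := by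
  intro hw
  rw [comp_of_mem hw] at h
  exact h (Set.finite_singleton w)

theorem comp_disjoint {K : Set V} {w x : V} (hw : w ∉ K) (hx : x ∈ comp G K w) : x ∉ K := by
  have hx : Relation.ReflTransGen (Step G K) w x := hx
  induction hx with
  | refl => exact hw
  | tail _ hst _ => exact hst.2.2

theorem comp_adj {K : Set V} {w x y : V} (hw : w ∉ K) (hx : x ∈ comp G K w) (hy : y ∉ K)
    (hxy : G.Adj x y) : y ∈ comp G K w :=
  Relation.ReflTransGen.tail hx ⟨hxy, comp_disjoint hw hx, hy⟩

theorem comp_mono {K L : Set V} (h : K ⊆ L) (w : V) : comp G L w ⊆ comp G K w := by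
  intro x hx
  have key : ∀ x, Relation.ReflTransGen (Step G L) w x → Relation.ReflTransGen (Step G K) w x := by
    intro x hx
    induction hx with
    | refl => exact Relation.ReflTransGen.refl
    | tail _ hab ih =>
      exact Relation.ReflTransGen.tail ih ⟨hab.1, fun ha => hab.2.1 (h ha),
        fun hb => hab.2.2 (h hb)⟩
  exact key x hx

theorem comp_conn (K : Set V) (w : V) : Conn G (comp G K w) := by
  intro A hA
  have key : ∀ x, Relation.ReflTransGen (Step G K) w x → (x ∈ A ↔ w ∈ A) := by
    intro x hx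
    induction hx with
    | refl => exact Iff.rfl
    | tail hab hst ih =>
      rename_i b c
      rw [← ih]
      have hb : b ∈ comp G K w := hab
      have hc : c ∈ comp G K w := Relation.ReflTransGen.tail hab hst
      constructor
      · intro hcA
        by_contra hbA
        exact hA c hc b hb hcA hbA hst.1.symm
      · intro hbA
        by_contra hcA
        exact hA b hb c hc hbA hcA hst.1
  by_cases hw : w ∈ A
  · left
    intro x hx
    exact (key x hx).mpr hw
  · right
    intro x hx hxA
    exact hw ((key x hx).mp hxA)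

theorem Conn.union {X Y : Set V} (hX : Conn G X) (hY : Conn G Y) {x y : V} (hx : x ∈ X)
    (hy : y ∈ Y) (hxy : G.Adj x y) : Conn G (X ∪ Y) := by
  intro A hA
  have h1 := hX A (fun a ha b hb => hA a (Or.inl ha) b (Or.inl hb))
  have h2 := hY A (fun a ha b hb => hA a (Or.inr ha) b (Or.inr hb))
  rcases h1 with h1 | h1 <;> rcases h2 with h2 | h2
  · left; exact Set.union_subset h1 h2
  · exfalso
    exact hA x (Or.inl hx) y (Or.inr hy) (h1 hx) (h2 hy) hxy
  · exfalso
    exact hA y (Or.inr hy) x (Or.inl hx) (h2 hy) (h1 hx) hxy.symm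
  · right; exact Set.union_subset h1 h2

/-- In a connected graph every component of the complement touches `K`. -/
theorem comp_touch (hconn : G.Connected) {K : Set V} (hK : K.Nonempty) {w : V} (hw : w ∉ K) :
    ∃ x ∈ comp G K w, ∃ y ∈ K, G.Adj x y := by
  obtain ⟨k, hk⟩ := hK
  by_contra hcon
  push Not at hcon
  have key : ∀ a b (p : G.Walk a b), a ∈ comp G K w → b ∈ comp G K w := by
    intro a b p
    induction p with
    | nil => exact id
    | cons hadj p ih =>
      intro ha
      apply ih
      apply comp_adj hw ha _ hadj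
      intro hK
      exact hcon _ ha _ hK hadj
  obtain ⟨p⟩ := hconn.preconnected w k
  exact comp_disjoint hw (key w k p (mem_comp_self K w)) hk

theorem fill_finite (hconn : G.Connected) (hfin : ∀ v, (G.neighborSet v).Finite) {K : Set V}
    (hK : K.Nonempty) (hKf : K.Finite) : (Fill G K).Finite := by
  classical
  let D : Set V := ⋃ y ∈ K, G.neighborSet y
  have hD : D.Finite := hKf.biUnion (fun y _ => hfin y)
  let D' : Set V := {x ∈ D | (comp G K x).Finite}
  have hD' : D'.Finite := hD.subset (fun x hx => hx.1)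
  have : (K ∪ ⋃ x ∈ D', comp G K x).Finite := by
    apply hKf.union
    exact hD'.biUnion (fun x hx => hx.2)
  apply this.subset
  intro w hw
  by_cases hwK : w ∈ K
  · exact Or.inl hwK
  · right
    obtain ⟨x, hx, y, hy, hxy⟩ := comp_touch hconn hK hwK
    have hxD : x ∈ D := by
      simp only [D, Set.mem_iUnion]
      exact ⟨y, hy, hxy.symm⟩
    have hcx : comp G K x = comp G K w := comp_eq hx
    have hxfin : (comp G K x).Finite := by rw [hcx]; exact hw
    simp only [Set.mem_iUnion]
    exact ⟨x, ⟨hxD, hxfin⟩, comp_symm hx⟩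

theorem subset_fill (K : Set V) : K ⊆ Fill G K := by
  intro w hw
  change (comp G K w).Finite
  rw [comp_of_mem hw]
  exact Set.finite_singleton w

theorem exists_infinite_sub (hconn : G.Connected) (hfin : ∀ v, (G.neighborSet v).Finite)
    {K L : Set V} (hL : L.Nonempty) (hLf : L.Finite) {w : V} (hw : (comp G K w).Infinite) :
    ∃ x ∈ comp G K w, (comp G L x).Infinite := by
  by_contra hcon
  push Not at hcon
  apply hw
  apply (fill_finite hconn hfin hL hLf).subset
  intro x hx
  exact hcon x hx

theorem bl_finite (hfin : ∀ v, (G.neighborSet v).Finite) (v : V) (r : ℕ) : (bl G v r).Finite := by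
  induction r with
  | zero => exact Set.finite_singleton v
  | succ r ih =>
    apply ih.union
    have : {y | ∃ x ∈ bl G v r, G.Adj x y} = ⋃ x ∈ bl G v r, G.neighborSet x := by
      ext y
      simp
    rw [this]
    exact ih.biUnion (fun x _ => hfin x)

theorem self_mem_bl (v : V) (r : ℕ) : v ∈ bl G v r := by
  induction r with
  | zero => exact rfl
  | succ r ih => exact Or.inl ih

theorem bl_mono (v : V) {r s : ℕ} (h : r ≤ s) : bl G v r ⊆ bl G v s := by
  induction h with
  | refl => exact fun _ h => h
  | step _ ih => exact fun x hx => Or.inl (ih hx)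

theorem bl_conn (v : V) (r : ℕ) : Conn G (bl G v r) := by
  induction r with
  | zero =>
    intro A _
    by_cases h : v ∈ A
    · left
      rintro x rfl
      exact h
    · right
      rintro x rfl
      exact h
  | succ r ih =>
    intro A hA
    have h1 := ih A (fun a ha b hb => hA a (Or.inl ha) b (Or.inl hb))
    rcases h1 with h1 | h1
    · left
      rintro x (hx | ⟨y, hy, hyx⟩)
      · exact h1 hx
      · by_contra hxA
        exact hA y (Or.inl hy) x (Or.inr ⟨y, hy, hyx⟩) (h1 hy) hxA hyx
    · right
      rintro x (hx | ⟨y, hy, hyx⟩) hxA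
      · exact h1 hx hxA
      · exact hA x (Or.inr ⟨y, hy, hyx⟩) y (Or.inl hy) hxA (h1 hy) hyx.symm

theorem exists_bl (hconn : G.Connected) (v w : V) : ∃ r, w ∈ bl G v r := by
  have key : ∀ a b (p : G.Walk a b), (∃ r, a ∈ bl G v r) → ∃ r, b ∈ bl G v r := by
    intro a b p
    induction p with
    | nil => exact id
    | cons hadj p ih =>
      rintro ⟨r, hr⟩
      exact ih ⟨r + 1, Or.inr ⟨_, hr, hadj⟩⟩
  obtain ⟨p⟩ := hconn.preconnected v w
  exact key v w p ⟨0, rfl⟩

theorem exists_bl_set (hconn : G.Connected) (v : V) {K : Set V} (hK : K.Finite) :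
    ∃ r, K ⊆ bl G v r := by
  induction K, hK using Set.Finite.induction_on with
  | empty => exact ⟨0, Set.empty_subset _⟩
  | insert _ _ ih =>
    rename_i a s _ _
    obtain ⟨r, hr⟩ := ih
    obtain ⟨r', hr'⟩ := exists_bl hconn v a
    refine ⟨max r r', ?_⟩
    intro x hx
    rcases hx with rfl | hx
    · exact bl_mono v (le_max_right _ _) hr'
    · exact bl_mono v (le_max_left _ _) (hr hx)

theorem bl_image {f : Equiv.Perm V} (hf : IsAut G f) (v : V) (r : ℕ) :
    f '' (bl G v r) = bl G (f v) r := by
  induction r with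
  | zero => simp [bl]
  | succ r ih =>
    change f '' (bl G v r ∪ {y | ∃ x ∈ bl G v r, G.Adj x y}) =
      bl G (f v) r ∪ {y | ∃ x ∈ bl G (f v) r, G.Adj x y}
    rw [Set.image_union, ih]
    congr 1
    ext y
    constructor
    · rintro ⟨y', ⟨x, hx, hxy⟩, rfl⟩
      exact ⟨f x, ih ▸ ⟨x, hx, rfl⟩, (hf x y').mpr hxy⟩
    · rintro ⟨x, hx, hxy⟩
      rw [← ih] at hx
      obtain ⟨x', hx', rfl⟩ := hx
      refine ⟨f⁻¹ y, ⟨x', hx', ?_⟩, by simp⟩
      rw [← hf]
      simpa using hxy

theorem comp_image {f : Equiv.Perm V} (hf : IsAut G f) (K : Set V) (w : V) :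
    f '' (comp G K w) = comp G (f '' K) (f w) := by
  have key : ∀ (g : Equiv.Perm V), IsAut G g → ∀ (K : Set V) (w : V),
      g '' (comp G K w) ⊆ comp G (g '' K) (g w) := by
    intro g hg K w
    rintro _ ⟨x, hx, rfl⟩
    have key : ∀ x, Relation.ReflTransGen (Step G K) w x →
        Relation.ReflTransGen (Step G (g '' K)) (g w) (g x) := by
      intro x hx
      induction hx with
      | refl => exact Relation.ReflTransGen.refl
      | tail _ hab ih =>
        obtain ⟨h1, h2, h3⟩ := hab
        refine Relation.ReflTransGen.tail ih ⟨(hg _ _).mpr h1, ?_, ?_⟩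
        · rintro ⟨c, hc, hca⟩
          exact h2 (g.injective hca ▸ hc)
        · rintro ⟨c, hc, hca⟩
          exact h3 (g.injective hca ▸ hc)
    exact key x hx
  apply Set.Subset.antisymm (key f hf K w)
  intro y hy
  have h1 := key f⁻¹ hf.inv (f '' K) (f w)
  rw [image_inv_image] at h1
  have h2 : f⁻¹ (f w) = w := by simp
  rw [h2] at h1
  refine ⟨f⁻¹ y, h1 ⟨y, hy, rfl⟩, by simp⟩

theorem fill_image {f : Equiv.Perm V} (hf : IsAut G f) (K : Set V) :
    f '' (Fill G K) = Fill G (f '' K) := by
  ext y
  constructor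
  · rintro ⟨x, hx, rfl⟩
    change (comp G (f '' K) (f x)).Finite
    rw [← comp_image hf]
    exact Set.Finite.image f hx
  · intro hy
    refine ⟨f⁻¹ y, ?_, by simp⟩
    have h1 : f (f⁻¹ y) = y := by simp
    have h2 : (comp G (f '' K) (f (f⁻¹ y))).Finite := by rw [h1]; exact hy
    rw [← comp_image hf] at h2
    exact Set.Finite.of_finite_image h2 f.injective.injOn

/-- Two-endedness in terms of components. -/
structure TwoEnded (G : SimpleGraph V) : Prop where
  atMost : ∀ K : Set V, K.Finite → ∀ w₁ w₂ w₃, (comp G K w₁).Infinite →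
    (comp G K w₂).Infinite → (comp G K w₃).Infinite →
    comp G K w₁ = comp G K w₂ ∨ comp G K w₁ = comp G K w₃ ∨ comp G K w₂ = comp G K w₃
  atLeast : ∃ K : Set V, K.Finite ∧ ∃ w₁ w₂, (comp G K w₁).Infinite ∧ (comp G K w₂).Infinite ∧
    comp G K w₁ ≠ comp G K w₂

/-- Passing to a larger finite set changes the infinite components only finitely. -/
theorem comm_sub (h2 : TwoEnded G) (hconn : G.Connected) (hfin : ∀ v, (G.neighborSet v).Finite)
    {K L : Set V} (hKL : K ⊆ L) (hL : L.Nonempty) (hLf : L.Finite) {p q z : V}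
    (hpq : comp G K p ≠ comp G K q) (hq : (comp G K q).Infinite)
    (hz : z ∈ comp G K p) (hzinf : (comp G L z).Infinite) :
    Comm (comp G K p) (comp G L z) := by
  have hsub : comp G L z ⊆ comp G K p := by
    rw [← comp_eq hz]
    exact comp_mono hKL z
  constructor
  · apply (fill_finite hconn hfin hL hLf).subset
    rintro x ⟨hx, hxz⟩
    change (comp G L x).Finite
    by_contra hinf
    obtain ⟨y, hy, hyinf⟩ := exists_infinite_sub hconn hfin hL hLf hq
    have hysub : comp G L y ⊆ comp G K q := by
      rw [← comp_eq hy]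
      exact comp_mono hKL y
    have hdisj : ∀ a ∈ comp G K p, a ∉ comp G K q := by
      rcases comp_eq_or_disjoint (G := G) K p q with h | h
      · exact absurd h hpq
      · exact h
    rcases h2.atMost L hLf z y x hzinf hyinf hinf with h | h | h
    · have := mem_comp_self (G := G) L z
      have h3 : z ∈ comp G L y := h ▸ this
      exact hdisj z hz (hysub h3)
    · apply hxz
      rw [h]
      exact mem_comp_self L x
    · have : x ∈ comp G L y := by
        rw [h]; exact mem_comp_self L x
      exact hdisj x hx (hysub this)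
  · have : comp G L z \ comp G K p = ∅ := by
      rw [Set.sdiff_eq_empty]; exact hsub
    rw [this]; exact Set.finite_empty

theorem exists_endData (h2 : TwoEnded G) (hconn : G.Connected)
    (hfin : ∀ v, (G.neighborSet v).Finite) : ∃ o F U₀ U₁, EndData G o F U₀ U₁ := by
  obtain ⟨K₀, hK₀, w₁, w₂, hw₁, hw₂, hne⟩ := h2.atLeast
  obtain ⟨r, hr⟩ := exists_bl_set hconn w₁ hK₀
  set o := w₁ with ho
  set B : Set V := bl G o r with hB
  have hBf : B.Finite := bl_finite hfin o r
  have hBne : B.Nonempty := ⟨o, self_mem_bl o r⟩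
  have hFf : (Fill G B).Finite := fill_finite hconn hfin hBne hBf
  obtain ⟨x₁, hx₁, hx₁inf⟩ := exists_infinite_sub hconn hfin hBne hBf hw₁
  obtain ⟨x₂, hx₂, hx₂inf⟩ := exists_infinite_sub hconn hfin hBne hBf hw₂
  have hdis0 : ∀ a ∈ comp G K₀ o, a ∉ comp G K₀ w₂ := by
    rcases comp_eq_or_disjoint (G := G) K₀ o w₂ with h | h
    · exact absurd h hne
    · exact h
  have hs1 : comp G B x₁ ⊆ comp G K₀ o := by
    rw [← comp_eq hx₁]; exact comp_mono hr x₁
  have hs2 : comp G B x₂ ⊆ comp G K₀ w₂ := by
    rw [← comp_eq hx₂]; exact comp_mono hr x₂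
  have hU : comp G B x₁ ≠ comp G B x₂ := by
    intro h
    have h3 := mem_comp_self (G := G) B x₁
    have h4 : x₁ ∈ comp G B x₂ := h ▸ h3
    exact hdis0 x₁ (hs1 h3) (hs2 h4)
  have hUdis : ∀ a ∈ comp G B x₁, a ∉ comp G B x₂ := fun a ha ha' => hdis0 a (hs1 ha) (hs2 ha')
  have hx₁B : x₁ ∉ B := notMem_of_infinite hx₁inf
  have hx₂B : x₂ ∉ B := notMem_of_infinite hx₂inf
  have hinfcase : ∀ w, (comp G B w).Infinite → comp G B w = comp G B x₁ ∨
      comp G B w = comp G B x₂ := by
    intro w hw
    rcases h2.atMost B hBf x₁ x₂ w hx₁inf hx₂inf hw with h | h | h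
    · exact absurd h hU
    · exact Or.inl h.symm
    · exact Or.inr h.symm
  have hfillcomp : ∀ v ∈ Fill G B, comp G B v ⊆ Fill G B := by
    intro v hv x hx
    change (comp G B x).Finite
    rw [comp_eq hx]; exact hv
  -- connectedness of the filled ball
  have hFconn : Conn G (Fill G B) := by
    have hsubF : B ⊆ Fill G B := subset_fill B
    have main : ∀ A : Set V, (∀ x ∈ Fill G B, ∀ y ∈ Fill G B, x ∈ A → y ∉ A → ¬ G.Adj x y) →
        B ⊆ A → Fill G B ⊆ A := by
      intro A hA hBA v hv
      by_cases hvB : v ∈ B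
      · exact hBA hvB
      · obtain ⟨x, hx, y, hy, hxy⟩ := comp_touch hconn hBne hvB
        have hxF : x ∈ Fill G B := hfillcomp v hv hx
        have hxA : x ∈ A := by
          by_contra hxA
          exact hA y (hsubF hy) x hxF (hBA hy) hxA hxy.symm
        rcases comp_conn B v A (fun a ha b hb => hA a (hfillcomp v hv ha) b
          (hfillcomp v hv hb)) with h | h
        · exact h (mem_comp_self B v)
        · exact absurd hxA (h hx)
    intro A hA
    rcases bl_conn o r A (fun a ha b hb => hA a (hsubF ha) b (hsubF hb)) with h | h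
    · exact Or.inl (main A hA h)
    · right
      apply main Aᶜ _ h
      intro x hx y hy hxA hyA hxy
      exact hA y hy x hx (not_not.mp hyA) hxA hxy.symm
  obtain ⟨a₁, ha₁, b₁, hb₁, hab₁⟩ := comp_touch hconn hBne hx₁B
  obtain ⟨a₂, ha₂, b₂, hb₂, hab₂⟩ := comp_touch hconn hBne hx₂B
  refine ⟨o, Fill G B, comp G B x₁, comp G B x₂, ?_⟩
  refine
    { oF := subset_fill B (self_mem_bl o r)
      Ffin := hFf
      U₀inf := hx₁inf
      U₁inf := hx₂inf
      cover := ?_
      disjF0 := ?_
      disjF1 := ?_
      disj01 := hUdis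
      noedge := ?_
      connF := hFconn
      conn0 := comp_conn B x₁
      conn1 := comp_conn B x₂
      connF0 := hFconn.union (comp_conn B x₁) (subset_fill B hb₁) ha₁ hab₁.symm
      connF1 := hFconn.union (comp_conn B x₂) (subset_fill B hb₂) ha₂ hab₂.symm
      comm := ?_
      fix := ?_
      near := ?_ }
  · intro v
    by_cases hv : (comp G B v).Finite
    · exact Or.inl hv
    · right
      rcases hinfcase v hv with h | h
      · left; rw [← h]; exact mem_comp_self B v
      · right; rw [← h]; exact mem_comp_self B v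
  · intro v hv hv'
    have : (comp G B v).Finite := hv
    rw [comp_eq hv'] at this
    exact hx₁inf this
  · intro v hv hv'
    have : (comp G B v).Finite := hv
    rw [comp_eq hv'] at this
    exact hx₂inf this
  · intro u hu w hw huw
    exact hUdis w (comp_adj hx₁B hu (comp_disjoint hx₂B hw) huw) hw
  · intro f hf
    set L : Set V := B ∪ f '' B with hL
    have hLf : L.Finite := hBf.union (hBf.image f)
    have hLne : L.Nonempty := hBne.mono (fun x hx => Or.inl hx)
    obtain ⟨z₀, hz₀, hz₀inf⟩ := exists_infinite_sub hconn hfin hLne hLf hx₁inf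
    obtain ⟨z₁, hz₁, hz₁inf⟩ := exists_infinite_sub hconn hfin hLne hLf hx₂inf
    have c0 := comm_sub h2 hconn hfin (Set.subset_union_left : B ⊆ L) hLne hLf hU hx₂inf hz₀ hz₀inf
    have c1 := comm_sub h2 hconn hfin (Set.subset_union_left : B ⊆ L) hLne hLf hU.symm hx₁inf
      hz₁ hz₁inf
    have hi1 : (comp G (f '' B) (f x₁)).Infinite := by
      rw [← comp_image hf]; exact hx₁inf.image f.injective.injOn
    have hi2 : (comp G (f '' B) (f x₂)).Infinite := by
      rw [← comp_image hf]; exact hx₂inf.image f.injective.injOn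
    have hne' : comp G (f '' B) (f x₁) ≠ comp G (f '' B) (f x₂) := by
      rw [← comp_image hf, ← comp_image hf]
      intro h
      exact hU (f.injective.image_injective h)
    obtain ⟨z', hz', hz'inf⟩ := exists_infinite_sub hconn hfin hLne hLf hi1
    have c' := comm_sub h2 hconn hfin (Set.subset_union_right : f '' B ⊆ L) hLne hLf hne' hi2
      hz' hz'inf
    rw [← comp_image hf] at c'
    have hz01 : comp G L z₀ ≠ comp G L z₁ := by
      intro h
      have h3 : z₀ ∈ comp G L z₁ := h ▸ mem_comp_self (G := G) L z₀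
      have h4 : comp G L z₁ ⊆ comp G B x₂ := by
        rw [← comp_eq hz₁]; exact comp_mono Set.subset_union_left z₁
      exact hUdis z₀ hz₀ (h4 h3)
    rcases h2.atMost L hLf z₀ z₁ z' hz₀inf hz₁inf hz'inf with h | h | h
    · exact absurd h hz01
    · left
      rw [← h] at c'
      exact c'.trans c0.symm
    · right
      rw [← h] at c'
      exact c'.trans c1.symm
  · intro f hf hfo
    rw [fill_image hf, hB, bl_image hf, hfo]
  · have hrad : ∀ x, ∃ s, o ∈ bl G x s := fun x => exists_bl hconn x o
    choose s hs using hrad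
    have : (⋃ x ∈ Fill G B, ⋃ y ∈ Fill G B, bl G y (s x)).Finite := by
      apply hFf.biUnion
      intro x _
      apply hFf.biUnion
      intro y _
      exact bl_finite hfin y (s x)
    apply this.subset
    rintro v ⟨f, hf, hfo, y, ⟨x, hx, hxy⟩, hy⟩
    simp only [Set.mem_iUnion]
    refine ⟨x, hx, y, hy, ?_⟩
    rw [← hfo, ← hxy, ← bl_image hf]
    exact ⟨o, hs x, rfl⟩

end

end Pool.Agent.Lib_MP_ce52b8_co
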