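import Pool.Agent.Lib_MP_ce52b8_co.Blocks

set_option autoImplicit false

namespace Pool.Agent.Lib_MP_ce52b8_co

open Finset

variable {V : Type*}

/-- `1` on even integers, `-1` on odd integers. -/
def sg (n : ℤ) : ℤ := if n % 2 = 0 then 1 else -1

theorem sg_cases (n : ℤ) : (n % 2 = 0 ∧ sg n = 1) ∨ (n % 2 = 1 ∧ sg n = -1) := by
  unfold sg
  rcases Int.emod_two_eq_zero_or_one n with h | h
  · left; simp [h]
  · right; simp [h]

/-- The sign used by the pairing of type `j`. -/
def eps (j n : ℤ) : ℤ := if j % 2 = 0 then sg (n / |j|) else sg n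

/-- The pairing of block indices of type `j`. -/
def pair (j n : ℤ) : ℤ := n + eps j n * j

theorem eps_cases (j n : ℤ) : eps j n = 1 ∨ eps j n = -1 := by
  unfold eps
  split_ifs
  · rcases sg_cases (n / |j|) with h | h
    · exact Or.inl h.2
    · exact Or.inr h.2
  · rcases sg_cases n with h | h
    · exact Or.inl h.2
    · exact Or.inr h.2

theorem eps_neg (j n : ℤ) : eps (-j) n = eps j n := by
  unfold eps
  rw [abs_neg, Int.neg_emod_two]

theorem eps_pair {j : ℤ} (hj : j ≠ 0) (n : ℤ) : eps j (pair j n) = - eps j n := by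
  unfold pair
  have hjpos : 0 < |j| := abs_pos.mpr hj
  by_cases hpar : j % 2 = 0
  · have e : ∀ m, eps j m = sg (m / |j|) := fun m => by simp [eps, hpar]
    rw [e, e]
    -- floor moves by one
    have hstep : ∀ c : ℤ, c = 1 ∨ c = -1 → (n + c * j) / |j| = n / |j| + 1 ∨
        (n + c * j) / |j| = n / |j| - 1 := by
      intro c hc
      rcases abs_choice j with hj' | hj'
      · rcases hc with rfl | rfl
        · left
          rw [hj', one_mul, Int.add_ediv_of_dvd_right (dvd_refl j), Int.ediv_self hj]
        · right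
          have : n + -1 * j = n + (-1) * j := rfl
          rw [hj', Int.add_mul_ediv_right _ _ hj]
          ring
      · have hj2 : j = -|j| := by rw [hj']; ring
        have hne : |j| ≠ 0 := hjpos.ne'
        rcases hc with rfl | rfl
        · right
          have : n + 1 * j = n + (-1) * |j| := by rw [hj2, abs_neg, abs_abs]; ring
          rw [this, Int.add_mul_ediv_right _ _ hne]
          ring
        · left
          have : n + -1 * j = n + 1 * |j| := by
            conv_lhs => rw [hj2]
            ring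
          rw [this, Int.add_mul_ediv_right _ _ hne]
    have hpar2 : (n + sg (n / |j|) * j) / |j| % 2 = (n / |j| + 1) % 2 := by
      have hc : sg (n / |j|) = 1 ∨ sg (n / |j|) = -1 := by
        rcases sg_cases (n / |j|) with h | h
        · exact Or.inl h.2
        · exact Or.inr h.2
      rcases hstep _ hc with h | h <;> rw [h] <;> omega
    rcases sg_cases (n / |j|) with h | h <;>
      rcases sg_cases ((n + sg (n / |j|) * j) / |j|) with h' | h'
    · exfalso; rw [hpar2] at h'; omega
    · rw [h'.2, h.2]
    · rw [h'.2, h.2]; rfl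
    · exfalso; rw [hpar2] at h'; omega
  · have e : ∀ m, eps j m = sg m := fun m => by simp [eps, hpar]
    rw [e, e]
    have hj1 : j % 2 = 1 := by omega
    rcases sg_cases n with h | h
    · rw [h.2, one_mul]
      rcases sg_cases (n + j) with h' | h'
      · exfalso; omega
      · exact h'.2
    · rw [h.2]
      rcases sg_cases (n + -1 * j) with h' | h'
      · rw [h'.2]; rfl
      · exfalso; omega

theorem pair_pair {j : ℤ} (hj : j ≠ 0) (n : ℤ) : pair j (pair j n) = n := by
  have h := eps_pair hj n
  have : pair j (pair j n) = pair j n + eps j (pair j n) * j := rfl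
  rw [this, h]
  unfold pair
  ring

theorem pair_ne {j : ℤ} (hj : j ≠ 0) (n : ℤ) : pair j n ≠ n := by
  unfold pair
  intro h
  have h2 : eps j n * j = 0 := by omega
  rcases eps_cases j n with h3 | h3 <;> rw [h3] at h2 <;> apply hj <;> omega

/-- The pairing of type `j` hits the block at distance `d ≠ 0` for exactly one `j`. -/
theorem pair_eq_iff (n d : ℤ) (hd : d ≠ 0) (j : ℤ) : pair j n = n + d ↔ j = eps d n * d := by
  unfold pair
  constructor
  · intro h
    have h2 : eps j n * j = d := by omega
    rcases eps_cases j n with h3 | h3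
    · rw [h3, one_mul] at h2
      rw [h2] at h3
      rw [h3, h2, one_mul]
    · rw [h3] at h2
      have h4 : d = -j := by omega
      have h5 : eps d n = -1 := by rw [h4, eps_neg, h3]
      rw [h5]; omega
  · intro h
    rcases eps_cases d n with h3 | h3
    · rw [h3, one_mul] at h
      rw [h, h3, one_mul]
    · rw [h3] at h
      have h4 : j = -d := by omega
      rw [h4, eps_neg, h3]; ring

theorem alpha_eps {α : ℤ → ℕ} (hsym : ∀ j, j % 2 = 0 → α (-j) = α j) (n d : ℤ) :
    α (eps d n * d) = α (sg n * d) := by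
  by_cases hpar : d % 2 = 0
  · have h1 : ∀ c : ℤ, c = 1 ∨ c = -1 → α (c * d) = α d := by
      rintro c (rfl | rfl)
      · rw [one_mul]
      · rw [neg_one_mul, hsym d hpar]
    rw [h1 _ (eps_cases d n), h1]
    rcases sg_cases n with h | h
    · exact Or.inl h.2
    · exact Or.inr h.2
  · have : eps d n = sg n := by simp [eps, hpar]
    rw [this]

theorem card_filter_sigma (J : Finset ℤ) (α : ℤ → ℕ) (hJ : ∀ j, j ≠ 0 → α j ≠ 0 → j ∈ J)
    (j₀ : ℤ) (hj₀ : j₀ ≠ 0) :
    (univ.filter (fun t : (Σ j : J, Fin (α j.1)) => t.1.1 = j₀)).card = α j₀ := by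
  classical
  by_cases h : j₀ ∈ J
  · have : (univ.filter (fun t : (Σ j : J, Fin (α j.1)) => t.1.1 = j₀)) =
        (univ : Finset (Fin (α j₀))).image
          (fun i => (⟨⟨j₀, h⟩, i⟩ : (Σ j : J, Fin (α j.1)))) := by
      ext ⟨⟨j, hj⟩, i⟩
      simp only [Finset.mem_filter, Finset.mem_univ, true_and, Finset.mem_image]
      constructor
      · rintro rfl
        exact ⟨i, rfl⟩
      · rintro ⟨i', hi'⟩
        have := congrArg (fun t : (Σ j : J, Fin (α j.1)) => t.1.1) hi'
        exact this.symm
    rw [this, Finset.card_image_of_injective, Finset.card_univ, Fintype.card_fin]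
    intro i i' hii
    simpa using hii
  · have h0 : α j₀ = 0 := by
      by_contra hne
      exact h (hJ j₀ hj₀ hne)
    rw [h0, Finset.card_eq_zero, Finset.filter_eq_empty_iff]
    rintro ⟨⟨j, hj⟩, i⟩ _ rfl
    exact h hj

theorem dihedral_colouring (G : SimpleGraph V) (hconn : G.Connected) (k : ℕ)
    (hfin : ∀ v, (G.neighborSet v).Finite) (hreg : ∀ v, (G.neighborSet v).ncard = k)
    (β : V → ℤ) (hfib : ∀ n, (β ⁻¹' {n}).Finite) (hfne : ∀ n, (β ⁻¹' {n}).Nonempty)
    (α : ℤ → ℕ) (hα : ∀ v j, {w | G.Adj v w ∧ β w = β v + j}.ncard = α (sg (β v) * j))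
    (hsym : ∀ j, j % 2 = 0 → α (-j) = α j) : G.lineGraph.Colorable k := by
  classical
  obtain ⟨o, ho⟩ := hfne 0
  have ho : β o = 0 := ho
  have hsg0 : sg 0 = 1 := by simp [sg]
  have hαo : ∀ j, {w | G.Adj o w ∧ β w = j}.ncard = α j := by
    intro j
    have := hα o j
    rw [ho, zero_add, hsg0, one_mul] at this
    exact this
  -- the finite support
  let NF : Finset V := (hfin o).toFinset
  let J : Finset ℤ := (NF.image β).erase 0
  have hJ : ∀ j, j ≠ 0 → α j ≠ 0 → j ∈ J := by
    intro j hj hne
    rw [← hαo j] at hne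
    have hnonempty : {w | G.Adj o w ∧ β w = j}.Nonempty := by
      rw [Set.nonempty_iff_ne_empty]
      intro h
      rw [h, Set.ncard_empty] at hne
      exact hne rfl
    obtain ⟨w, hw1, hw2⟩ := hnonempty
    rw [Finset.mem_erase, Finset.mem_image]
    exact ⟨hj, w, by simpa [NF] using hw1, hw2⟩
  have hcardk : α 0 + Fintype.card (Σ j : J, Fin (α j.1)) = k := by
    rw [Fintype.card_sigma]
    simp only [Fintype.card_fin]
    have h1 : ∑ j : J, α j.1 = ∑ j ∈ J, α j := Finset.sum_coe_sort J α
    rw [h1]
    have h2 : NF.card = k := by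
      rw [← hreg o, Set.ncard_eq_toFinset_card _ (hfin o)]
    rw [← h2]
    have h3 : ∀ w ∈ NF, β w ∈ insert 0 J := by
      intro w hw
      by_cases h : β w = 0
      · rw [h]; exact Finset.mem_insert_self _ _
      · apply Finset.mem_insert_of_mem
        rw [Finset.mem_erase]
        exact ⟨h, Finset.mem_image_of_mem β hw⟩
    rw [Finset.card_eq_sum_card_fiberwise h3, Finset.sum_insert (by simp [J])]
    have h4 : ∀ j, (NF.filter (fun w => β w = j)).card = α j := by
      intro j
      rw [← hαo j, ← Set.ncard_coe_finset]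
      congr 1
      ext w
      simp [NF]
    rw [h4 0]
    congr 1
    exact Finset.sum_congr rfl (fun j _ => (h4 j).symm)
  let σ : (Σ j : J, Fin (α j.1)) → ℤ → ℤ := fun t n => pair t.1.1 n
  have hne0 : ∀ t : (Σ j : J, Fin (α j.1)), t.1.1 ≠ 0 := fun t =>
    (Finset.mem_erase.mp t.1.2).1
  have hσ : ∀ t n, σ t (σ t n) = n := fun t n => pair_pair (hne0 t) n
  have hσ' : ∀ t n, σ t n ≠ n := fun t n => pair_ne (hne0 t) n
  have hdeg : ∀ v n', n' ≠ β v → {w | G.Adj v w ∧ β w = n'}.ncard =
      (univ.filter (fun t => σ t (β v) = n')).card := by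
    intro v n' hn'
    obtain ⟨d, rfl⟩ : ∃ d, n' = β v + d := ⟨n' - β v, by ring⟩
    have hd : d ≠ 0 := by rintro rfl; exact hn' (add_zero _)
    rw [hα v d, ← alpha_eps hsym (β v) d]
    have h1 : (univ.filter (fun t : (Σ j : J, Fin (α j.1)) => σ t (β v) = β v + d)) =
        univ.filter (fun t : (Σ j : J, Fin (α j.1)) => t.1.1 = eps d (β v) * d) := by
      ext t
      simp only [Finset.mem_filter, Finset.mem_univ, true_and, σ]
      exact pair_eq_iff (β v) d hd t.1.1
    rw [h1, card_filter_sigma J α hJ]
    rcases eps_cases d (β v) with h3 | h3 <;> rw [h3] <;> omega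
  have hdeg0 : ∀ v, {w | G.Adj v w ∧ β w = β v}.ncard ≤ α 0 := by
    intro v
    have := hα v 0
    rw [add_zero, mul_zero] at this
    exact this.le
  rw [← hcardk]
  by_cases hE : ∃ j, j ≠ 0 ∧ j % 2 = 0 ∧ α j ≠ 0
  · -- an even type
    have hE' : ∃ j, 0 < j ∧ j % 2 = 0 ∧ α j ≠ 0 := by
      obtain ⟨j, hj, hpar, hαj⟩ := hE
      rcases lt_or_gt_of_ne hj with h | h
      · exact ⟨-j, by omega, by omega, by rw [hsym j hpar]; exact hαj⟩
      · exact ⟨j, h, hpar, hαj⟩
    obtain ⟨j, hj, hpar, hαj⟩ := hE'
    have hj1 : j ∈ J := hJ j (by omega) hαj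
    have hαj2 : α (-j) ≠ 0 := by rw [hsym j hpar]; exact hαj
    have hj2 : -j ∈ J := hJ (-j) (by omega) hαj2
    let t₁ : (Σ j : J, Fin (α j.1)) := ⟨⟨j, hj1⟩, ⟨0, Nat.pos_of_ne_zero hαj⟩⟩
    let t₂ : (Σ j : J, Fin (α j.1)) := ⟨⟨-j, hj2⟩, ⟨0, Nat.pos_of_ne_zero hαj2⟩⟩
    apply block_colouring G β σ hσ hσ' hfib hfne hdeg (α 0) hdeg0 t₁ t₂ _ id
    · intro n
      simp only [id, σ, t₁, t₂, pair, eps_neg]
      rcases eps_cases j n with h | h <;> rw [h]
      · left; omega
      · right; omega
    · intro h
      have := congrArg (fun t : (Σ j : J, Fin (α j.1)) => t.1.1) h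
      simp only [t₁, t₂] at this
      omega
  · -- only odd types: two different ones by connectivity
    push Not at hE
    have hE : ∀ j, j ≠ 0 → j % 2 = 0 → α j = 0 := hE
    have hO : ∃ j j', j < j' ∧ j % 2 = 1 ∧ j' % 2 = 1 ∧ α j ≠ 0 ∧ α j' ≠ 0 := by
      by_contra hcon
      push Not at hcon
      -- all nonzero types are equal to a single j₀
      obtain ⟨j₀, hj₀odd, hj₀⟩ : ∃ j₀ : ℤ, j₀ % 2 = 1 ∧ ∀ j, j ≠ 0 → α j ≠ 0 → j = j₀ := by
        by_cases h : ∃ j, j ≠ 0 ∧ α j ≠ 0
        · obtain ⟨j, hj, hαj⟩ := h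
          have hjo : j % 2 = 1 := by
            by_contra hpar
            exact hαj (hE j hj (by omega))
          refine ⟨j, hjo, ?_⟩
          intro j' hj' hαj'
          have hjo' : j' % 2 = 1 := by
            by_contra hpar
            exact hαj' (hE j' hj' (by omega))
          rcases lt_trichotomy j j' with hlt | heq | hlt
          · exact absurd (hcon j j' hlt hjo hjo' hαj) hαj'
          · exact heq.symm
          · exact absurd (hcon j' j hlt hjo' hjo hαj') hαj
        · push Not at h
          exact ⟨1, by norm_num, fun j hj hαj => absurd (h j hj) hαj⟩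
      -- β only takes two values
      have hclosed : ∀ v w, G.Adj v w → (β v = 0 ∨ β v = j₀) → (β w = 0 ∨ β w = j₀) := by
        intro v w hvw hv
        obtain ⟨d, hd⟩ : ∃ d, β w = β v + d := ⟨β w - β v, by ring⟩
        by_cases hd0 : d = 0
        · rw [hd, hd0, add_zero]; exact hv
        · have h1 := hα v d
          have h2 : {w | G.Adj v w ∧ β w = β v + d}.ncard ≠ 0 := by
            have h6 := (Set.ncard_pos ((hfib (β v + d)).subset
              (fun w (hw : w ∈ {w | G.Adj v w ∧ β w = β v + d}) => hw.2))).mpr ⟨w, hvw, hd⟩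
            omega
          rw [h1] at h2
          have h3 : sg (β v) * d ≠ 0 := by
            rcases sg_cases (β v) with h | h <;> rw [h.2] <;> omega
          have h4 := hj₀ _ h3 h2
          rcases hv with hv | hv
          · rw [hv, hsg0, one_mul] at h4
            right; rw [hd, hv, h4, zero_add]
          · have h5 : sg (β v) = -1 := by
              rcases sg_cases (β v) with h | h
              · exfalso; rw [hv] at h; omega
              · exact h.2
            rw [h5] at h4
            left; rw [hd, hv]; omega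
      have hall : ∀ v, β v = 0 ∨ β v = j₀ := by
        intro v
        have hr : G.Reachable o v := hconn.preconnected o v
        obtain ⟨p⟩ := hr
        have : ∀ a b (p : G.Walk a b), (β a = 0 ∨ β a = j₀) → (β b = 0 ∨ β b = j₀) := by
          intro a b p
          induction p with
          | nil => exact id
          | cons hadj p ih => exact fun h => ih (hclosed _ _ hadj h)
        exact this o v p (Or.inl ho)
      obtain ⟨v, hv⟩ := hfne (|j₀| + 1)
      have hv : β v = |j₀| + 1 := hv
      rcases hall v with h | h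
      · have := abs_nonneg j₀
        omega
      · have := le_abs_self j₀
        omega
    obtain ⟨j, j', hlt, hjo, hjo', hαj, hαj'⟩ := hO
    have hj1 : j ∈ J := hJ j (by omega) hαj
    have hj2 : j' ∈ J := hJ j' (by omega) hαj'
    let t₁ : (Σ j : J, Fin (α j.1)) := ⟨⟨j, hj1⟩, ⟨0, Nat.pos_of_ne_zero hαj⟩⟩
    let t₂ : (Σ j : J, Fin (α j.1)) := ⟨⟨j', hj2⟩, ⟨0, Nat.pos_of_ne_zero hαj'⟩⟩
    apply block_colouring G β σ hσ hσ' hfib hfne hdeg (α 0) hdeg0 t₁ t₂ _
      (fun n => if n % 2 = 0 then 2 * n else 2 * n - j' - j)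
    · intro n
      have e1 : eps j n = sg n := by
        unfold eps; rw [if_neg (by omega)]
      have e2 : eps j' n = sg n := by
        unfold eps; rw [if_neg (by omega)]
      simp only [σ, t₁, t₂, pair, e1, e2]
      rcases sg_cases n with h | h
      · right
        rw [h.2, one_mul, if_pos h.1, if_neg (by omega)]
        omega
      · left
        rw [h.2, if_neg (by omega), if_pos (by omega)]
        omega
    · intro h
      have := congrArg (fun t : (Σ j : J, Fin (α j.1)) => t.1.1) h
      simp only [t₁, t₂] at this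
      omega

end Pool.Agent.Lib_MP_ce52b8_co
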