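import Pool.Agent.Lib_MP_ce52b8_co.Comp

set_option autoImplicit false

universe u

namespace Pool.Agent.Lib_MP_ce52b8_co

open CategoryTheory Opposite

variable {V : Type u} {G : SimpleGraph V}

theorem supp_eq_comp (K : Finset V) {w : V} (hw : w ∉ (K : Set V)) :
    (G.componentComplMk hw).supp = comp G (K : Set V) w := by
  ext x
  constructor
  · rintro ⟨hx, h⟩
    have hr : (G.induce ((K : Set V)ᶜ)).Reachable ⟨w, hw⟩ ⟨x, hx⟩ :=
      (SimpleGraph.ConnectedComponent.eq.mp h).symm
    obtain ⟨p⟩ := hr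
    have key : ∀ (a b : ((K : Set V)ᶜ : Set V)) (p : (G.induce ((K : Set V)ᶜ)).Walk a b),
        Relation.ReflTransGen (Step G (K : Set V)) a.1 b.1 := by
      intro a b p
      induction p with
      | nil => exact Relation.ReflTransGen.refl
      | cons hadj p ih =>
        rename_i a b c
        exact Relation.ReflTransGen.head ⟨hadj, a.2, b.2⟩ ih
    exact key ⟨w, hw⟩ ⟨x, hx⟩ p
  · intro h
    have key : ∀ x, Relation.ReflTransGen (Step G (K : Set V)) w x →
        x ∈ (G.componentComplMk hw).supp := by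
      intro x hx
      induction hx with
      | refl => exact ⟨hw, rfl⟩
      | tail _ hst ih =>
        exact SimpleGraph.ComponentCompl.mem_of_adj _ _ ih hst.2.2 hst.1
    exact key x h

theorem end_infinite {s : (j : (Finset V)ᵒᵖ) → G.componentComplFunctor.obj j}
    (hs : s ∈ G.end) (K : (Finset V)ᵒᵖ) : (s K).supp.Infinite := by
  refine (s K).infinite_iff_in_all_ranges.mpr (fun L h => ?_)
  change Opposite.unop K ⊆ Opposite.unop (Opposite.op L) at h
  exact ⟨s (Opposite.op L), (hs (CategoryTheory.opHomOfLE h))⟩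

theorem exists_end [G.LocallyFinite] [Infinite V] (hc : G.Preconnected) (K : Finset V)
    (C : G.ComponentCompl K) (hC : C.supp.Infinite) : ∃ s ∈ G.end, s (op K) = C := by
  haveI : Fact G.Preconnected := ⟨hc⟩
  haveI hfin : ∀ K : (Finset V)ᵒᵖ, Finite (G.componentComplFunctor.obj K) :=
    fun K => G.componentCompl_finite K.unop
  haveI hne : ∀ K : (Finset V)ᵒᵖ, Nonempty (G.componentComplFunctor.obj K) :=
    fun K => G.componentCompl_nonempty_of_infinite K.unop
  have hML : G.componentComplFunctor.IsMittagLeffler :=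
    Functor.isMittagLeffler_of_exists_finite_range _ (fun j => ⟨j, 𝟙 j, Set.toFinite _⟩)
  haveI hne' : ∀ K : (Finset V)ᵒᵖ, Nonempty (G.componentComplFunctor.toEventualRanges.obj K) :=
    fun K => Functor.toEventualRanges_nonempty _ hML K
  have hsurj := Functor.eval_section_surjective_of_surjective
    (F := G.componentComplFunctor.toEventualRanges)
    (fun i j f => Functor.surjective_toEventualRanges _ hML f) (op K)
  have hCr : C ∈ G.componentComplFunctor.eventualRange (op K) :=
    (SimpleGraph.infinite_iff_in_eventualRange G (K := op K) C).mp hC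
  obtain ⟨s, hs⟩ := hsurj ⟨C, hCr⟩
  refine ⟨(Functor.toEventualRangesSectionsEquiv _ s).1,
    (Functor.toEventualRangesSectionsEquiv _ s).2, ?_⟩
  change (s.1 (op K)).1 = C
  have hs' : s.1 (op K) = ⟨C, hCr⟩ := hs
  rw [hs']

theorem twoEnded_of_encard [G.LocallyFinite] [Infinite V] (hc : G.Preconnected)
    (h : G.end.encard = 2) : TwoEnded G := by
  classical
  obtain ⟨s₁, s₂, hne, hEq⟩ := Set.encard_eq_two.mp h
  constructor
  · intro K hK w₁ w₂ w₃ h₁ h₂ h₃
    obtain ⟨K', rfl⟩ : ∃ K' : Finset V, (K' : Set V) = K := ⟨hK.toFinset, by simp⟩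
    have hw₁ := notMem_of_infinite h₁
    have hw₂ := notMem_of_infinite h₂
    have hw₃ := notMem_of_infinite h₃
    rw [← supp_eq_comp K' hw₁] at h₁
    rw [← supp_eq_comp K' hw₂] at h₂
    rw [← supp_eq_comp K' hw₃] at h₃
    obtain ⟨e₁, he₁, hC₁⟩ := exists_end hc K' _ h₁
    obtain ⟨e₂, he₂, hC₂⟩ := exists_end hc K' _ h₂
    obtain ⟨e₃, he₃, hC₃⟩ := exists_end hc K' _ h₃
    rw [← supp_eq_comp K' hw₁, ← supp_eq_comp K' hw₂, ← supp_eq_comp K' hw₃, ← hC₁, ← hC₂, ← hC₃]
    rw [hEq] at he₁ he₂ he₃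
    rcases he₁ with rfl | rfl <;> rcases he₂ with rfl | rfl <;> rcases he₃ with rfl | rfl <;>
      simp
  · have hex : ∃ K, s₁ K ≠ s₂ K := by
      by_contra hcon
      push Not at hcon
      exact hne (funext hcon)
    obtain ⟨K, hK⟩ := hex
    have hs₁ : s₁ ∈ G.end := by rw [hEq]; exact Or.inl rfl
    have hs₂ : s₂ ∈ G.end := by rw [hEq]; exact Or.inr rfl
    have hi₁ := end_infinite hs₁ K
    have hi₂ := end_infinite hs₂ K
    obtain ⟨w₁, hw₁, e₁⟩ := (s₁ K).exists_eq_mk
    obtain ⟨w₂, hw₂, e₂⟩ := (s₂ K).exists_eq_mk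
    refine ⟨(K.unop : Set V), K.unop.finite_toSet, w₁, w₂, ?_, ?_, ?_⟩
    · rw [← supp_eq_comp K.unop hw₁, e₁]; exact hi₁
    · rw [← supp_eq_comp K.unop hw₂, e₂]; exact hi₂
    · rw [← supp_eq_comp K.unop hw₁, ← supp_eq_comp K.unop hw₂, e₁, e₂]
      intro h
      exact hK (SimpleGraph.ComponentCompl.supp_injective h)

/-- Two-ended, `k`-regular, vertex-transitive graphs are `k`-edge-colourable. -/
theorem main (G : SimpleGraph V) [G.LocallyFinite] (k : ℕ) (hconn : G.Connected)
    (hreg : G.IsRegularOfDegree k) (htrans : ∀ u v : V, ∃ φ : G ≃g G, φ u = v)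
    (hends : G.end.encard = 2) : G.lineGraph.Colorable k := by
  classical
  have hfin : ∀ v, (G.neighborSet v).Finite := fun v => Set.toFinite _
  have hdeg : ∀ v, (G.neighborSet v).ncard = k := by
    intro v
    rw [Set.ncard_eq_toFinset_card', ← hreg v]
    rfl
  -- V is infinite
  have hVinf : Infinite V := by
    by_contra hcon
    rw [not_infinite_iff_finite] at hcon
    have := hcon
    cases nonempty_fintype V
    obtain ⟨s₁, s₂, hne, hEq⟩ := Set.encard_eq_two.mp hends
    have hs₁ : s₁ ∈ G.end := by rw [hEq]; exact Or.inl rfl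
    have := end_infinite hs₁ (op Finset.univ)
    exact this (Set.toFinite _)
  have h2 := twoEnded_of_encard hconn.preconnected hends
  obtain ⟨o, F, U₀, U₁, hE⟩ := exists_endData h2 hconn hfin
  obtain ⟨β, α, hβfin, hβne, hα, hsym⟩ := hE.exists_height (by
    intro v
    obtain ⟨φ, hφ⟩ := htrans o v
    exact ⟨φ.toEquiv, fun a b => φ.map_rel_iff, hφ⟩)
  exact dihedral_colouring G hconn k hfin hdeg β hβfin hβne α hα hsym

end Pool.Agent.Lib_MP_ce52b8_co
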