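import Pool.Agent.Lib_MP_ce52b8_co.Kempe

set_option autoImplicit false

namespace Pool.Agent.Lib_MP_ce52b8_co

open Finset

variable {V κ : Type*} [DecidableEq κ]

open Classical in
/-- Exchange the colours `a` and `b` on the set `S`. -/
noncomputable def swapCol (S : Set V) (a b : κ) (π : κ → V → V) : κ → V → V :=
  fun c u => if u ∈ S then π (Equiv.swap a b c) u else π c u

theorem swapCol_mem {S : Set V} {a b : κ} {π : κ → V → V} {c : κ} {u : V} (h : u ∈ S) :
    swapCol S a b π c u = π (Equiv.swap a b c) u := by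
  simp [swapCol, h]

theorem swapCol_notMem {S : Set V} {a b : κ} {π : κ → V → V} {c : κ} {u : V} (h : u ∉ S) :
    swapCol S a b π c u = π c u := by
  simp [swapCol, h]

theorem swapCol_ne {S : Set V} {a b : κ} {π : κ → V → V} {c : κ} {u : V} (ha : c ≠ a)
    (hb : c ≠ b) : swapCol S a b π c u = π c u := by
  by_cases h : u ∈ S
  · rw [swapCol_mem h, Equiv.swap_apply_of_ne_of_ne ha hb]
  · exact swapCol_notMem h

theorem swap_mem {C : Finset κ} {a b c : κ} (ha : a ∈ C) (hb : b ∈ C) (hc : c ∈ C) :
    Equiv.swap a b c ∈ C := by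
  by_cases h1 : c = a
  · subst h1; simpa using hb
  · by_cases h2 : c = b
    · subst h2; simpa using ha
    · rwa [Equiv.swap_apply_of_ne_of_ne h1 h2]

theorem swapCol_isCol {C : Finset κ} {π : κ → V → V} (h : IsCol C π) {a b : κ} (ha : a ∈ C)
    (hb : b ∈ C) {S : Set V} (hSa : ∀ x ∈ S, π a x ∈ S) (hSb : ∀ x ∈ S, π b x ∈ S) :
    IsCol C (swapCol S a b π) := by
  have hSa' : ∀ x, x ∉ S → π a x ∉ S := by
    intro x hx hx'
    apply hx
    have := hSa _ hx'
    rwa [h.inv a ha] at this
  have hSb' : ∀ x, x ∉ S → π b x ∉ S := by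
    intro x hx hx'
    apply hx
    have := hSb _ hx'
    rwa [h.inv b hb] at this
  constructor
  · intro c hc u
    by_cases hca : c = a
    · subst hca
      by_cases hu : u ∈ S
      · rw [swapCol_mem hu, Equiv.swap_apply_left, swapCol_mem (hSb u hu),
          Equiv.swap_apply_left, h.inv b hb]
      · rw [swapCol_notMem hu, swapCol_notMem (hSa' u hu), h.inv c hc]
    · by_cases hcb : c = b
      · subst hcb
        by_cases hu : u ∈ S
        · rw [swapCol_mem hu, Equiv.swap_apply_right, swapCol_mem (hSa u hu),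
            Equiv.swap_apply_right, h.inv a ha]
        · rw [swapCol_notMem hu, swapCol_notMem (hSb' u hu), h.inv c hc]
      · rw [swapCol_ne hca hcb, swapCol_ne hca hcb, h.inv c hc]
  · intro c hc d hd hcd u huu
    by_cases hu : u ∈ S
    · rw [swapCol_mem hu, swapCol_mem hu] at huu
      rw [swapCol_mem hu]
      exact h.disj _ (swap_mem ha hb hc) _ (swap_mem ha hb hd)
        (fun e => hcd ((Equiv.swap a b).injective e)) u huu
    · rw [swapCol_notMem hu, swapCol_notMem hu] at huu
      rw [swapCol_notMem hu]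
      exact h.disj c hc d hd hcd u huu

theorem swapCol_rel {C : Finset κ} {π : κ → V → V} {a b : κ} (ha : a ∈ C)
    (hb : b ∈ C) {S : Set V} (u w : V) :
    Rel C (swapCol S a b π) u w ↔ Rel C π u w := by
  by_cases hu : u ∈ S
  · constructor
    · rintro ⟨hne, c, hc, hcu⟩
      rw [swapCol_mem hu] at hcu
      exact ⟨hne, _, swap_mem ha hb hc, hcu⟩
    · rintro ⟨hne, c, hc, hcu⟩
      refine ⟨hne, Equiv.swap a b c, swap_mem ha hb hc, ?_⟩
      rw [swapCol_mem hu, Equiv.swap_apply_self, hcu]
  · constructor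
    · rintro ⟨hne, c, hc, hcu⟩
      rw [swapCol_notMem hu] at hcu
      exact ⟨hne, _, hc, hcu⟩
    · rintro ⟨hne, c, hc, hcu⟩
      refine ⟨hne, c, hc, ?_⟩
      rw [swapCol_notMem hu, hcu]

/-- A colouring together with marked missing colours. -/
structure Good (C : Finset κ) (R : V → V → Prop) (N : Finset V) (wt : V → ℕ) (π : κ → V → V)
    (m : V → Finset κ) : Prop where
  col : IsCol C π
  rel : ∀ u w, Rel C π u w ↔ R u w
  sub : ∀ u ∈ N, m u ⊆ C
  miss : ∀ u ∈ N, ∀ a ∈ m u, π a u = u
  card : ∀ u ∈ N, (m u).card = wt u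

/-- Vertices of `N` marked with `a`. -/
def X (N : Finset V) (m : V → Finset κ) (a : κ) : Finset V := N.filter (fun u => a ∈ m u)

theorem mem_X {N : Finset V} {m : V → Finset κ} {a : κ} {u : V} :
    u ∈ X N m a ↔ u ∈ N ∧ a ∈ m u := by
  simp [X]

theorem swap_step {C : Finset κ} {R : V → V → Prop} {N : Finset V} {wt : V → ℕ}
    {π : κ → V → V} {m : V → Finset κ} (hg : Good C R N wt π m) {a b : κ} (ha : a ∈ C)
    (hb : b ∈ C) (hab : (X N m b).card + 2 < (X N m a).card) :
    ∃ π' m', Good C R N wt π' m' ∧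
      ∑ c ∈ C, (X N m' c).card ^ 2 < ∑ c ∈ C, (X N m c).card ^ 2 := by
  classical
  have hne : a ≠ b := by
    rintro rfl; omega
  have hpa := hg.col.inv a ha
  have hpb := hg.col.inv b hb
  -- find a good component
  have hex : ∃ u ∈ X N m a, ∀ z ∈ Set.range (walk (π a) (π b) u), z ∉ X N m b := by
    by_contra hcon
    push Not at hcon
    choose! g hg1 hg2 using hcon
    have : (X N m a).card ≤ (X N m b).card := by
      apply Finset.card_le_card_of_injOn g
      · intro u hu
        exact hg2 u hu
      · intro u hu u' hu' huu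
        have hu := Finset.mem_coe.mp hu
        have hu' := Finset.mem_coe.mp hu'
        have hau : π a u = u := hg.miss u (mem_X.mp hu).1 a (mem_X.mp hu).2
        have hau' : π a u' = u' := hg.miss u' (mem_X.mp hu').1 a (mem_X.mp hu').2
        have hz : π b (g u) = g u :=
          hg.miss _ (mem_X.mp (hg2 u hu)).1 b (mem_X.mp (hg2 u hu)).2
        obtain ⟨n, hn⟩ := hg1 u hu
        obtain ⟨n', hn'⟩ := hg1 u' hu'
        have hcl := walk_closed hpa hpb hau
        -- u' lies in the component of u
        have hu'S : u' ∈ Set.range (walk (π a) (π b) u) := by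
          apply walk_back hpa hpb u' _ hcl.1 hcl.2 n'
          rw [hn', ← huu]
          exact hg1 u hu
        by_contra hne2
        by_cases hzu : g u = u
        · -- then {u} is closed
          have h1 : u' ∈ ({u} : Set V) := by
            apply walk_back hpa hpb u' {u} _ _ n'
            · rw [hn', ← huu, hzu]; rfl
            · intro x hx
              rw [Set.mem_singleton_iff] at hx ⊢
              rw [hx, hau]
            · intro x hx
              rw [Set.mem_singleton_iff] at hx ⊢
              rw [hx, ← hzu, hz]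
          exact hne2 (Set.mem_singleton_iff.mp h1).symm
        · have h2 : u' = g u :=
            walk_endpoint_unique hpa hpb hau hu'S (hg1 u hu) (fun h => hne2 h.symm) hzu
              (Or.inl hau') (Or.inr hz)
          have h3 : u ∈ ({u'} : Set V) := by
            apply walk_back hpa hpb u {u'} _ _ n
            · rw [hn, ← h2]; rfl
            · intro x hx
              rw [Set.mem_singleton_iff] at hx ⊢
              rw [hx, hau']
            · intro x hx
              rw [Set.mem_singleton_iff] at hx ⊢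
              rw [hx, h2, hz]
          exact hne2 (Set.mem_singleton_iff.mp h3)
    omega
  obtain ⟨u, huX, huS⟩ := hex
  have hau : π a u = u := hg.miss u (mem_X.mp huX).1 a (mem_X.mp huX).2
  obtain ⟨hSa, hSb⟩ := walk_closed hpa hpb hau
  set S : Set V := Set.range (walk (π a) (π b) u) with hS
  have huinS : u ∈ S := ⟨0, rfl⟩
  let m' : V → Finset κ := fun v => if v ∈ S then (m v).image (Equiv.swap a b) else m v
  have hm'S : ∀ v ∈ S, m' v = (m v).image (Equiv.swap a b) := fun v hv => by simp [m', hv]
  have hm'nS : ∀ v, v ∉ S → m' v = m v := fun v hv => by simp [m', hv]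
  have hmem : ∀ v ∈ S, ∀ c, c ∈ m' v ↔ Equiv.swap a b c ∈ m v := by
    intro v hv c
    rw [hm'S v hv, Finset.mem_image]
    constructor
    · rintro ⟨d, hd, rfl⟩
      simpa using hd
    · intro h
      exact ⟨_, h, by simp⟩
  have hgood : Good C R N wt (swapCol S a b π) m' := by
    refine ⟨swapCol_isCol hg.col ha hb hSa hSb, ?_, ?_, ?_, ?_⟩
    · intro x w
      rw [swapCol_rel ha hb, hg.rel]
    · intro v hv c hc
      by_cases hvS : v ∈ S
      · rw [hmem v hvS] at hc
        have := hg.sub v hv hc
        have h2 := swap_mem ha hb this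
        simpa using h2
      · rw [hm'nS v hvS] at hc
        exact hg.sub v hv hc
    · intro v hv c hc
      by_cases hvS : v ∈ S
      · rw [hmem v hvS] at hc
        rw [swapCol_mem hvS]
        exact hg.miss v hv _ hc
      · rw [hm'nS v hvS] at hc
        rw [swapCol_notMem hvS]
        exact hg.miss v hv _ hc
    · intro v hv
      by_cases hvS : v ∈ S
      · rw [hm'S v hvS, Finset.card_image_of_injective _ (Equiv.swap a b).injective]
        exact hg.card v hv
      · rw [hm'nS v hvS]
        exact hg.card v hv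
  refine ⟨swapCol S a b π, m', hgood, ?_⟩
  -- the sets X' 
  set D : Finset V := (X N m a).filter (fun v => v ∈ S) with hD
  have hXa : X N m' a = (X N m a) \ D := by
    ext v
    rw [mem_X, Finset.mem_sdiff, hD, Finset.mem_filter, mem_X]
    by_cases hvS : v ∈ S
    · rw [hmem v hvS, Equiv.swap_apply_left]
      constructor
      · rintro ⟨h1, h2⟩
        exact absurd (mem_X.mpr ⟨h1, h2⟩) (huS v hvS)
      · rintro ⟨h1, h2⟩
        exact absurd ⟨h1, hvS⟩ h2
    · rw [hm'nS v hvS]
      constructor
      · rintro h1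
        exact ⟨h1, fun h => hvS h.2⟩
      · rintro ⟨h1, _⟩
        exact h1
  have hXb : X N m' b = (X N m b) ∪ D := by
    ext v
    rw [mem_X, Finset.mem_union, hD, Finset.mem_filter, mem_X, mem_X]
    by_cases hvS : v ∈ S
    · rw [hmem v hvS, Equiv.swap_apply_right]
      constructor
      · rintro h
        exact Or.inr ⟨h, hvS⟩
      · rintro (h | h)
        · exact absurd (mem_X.mpr h) (huS v hvS)
        · exact h.1
    · rw [hm'nS v hvS]
      constructor
      · intro h; exact Or.inl h
      · rintro (h | h)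
        · exact h
        · exact absurd h.2 hvS
  have hXc : ∀ c, c ≠ a → c ≠ b → X N m' c = X N m c := by
    intro c hca hcb
    ext v
    rw [mem_X, mem_X]
    by_cases hvS : v ∈ S
    · rw [hmem v hvS, Equiv.swap_apply_of_ne_of_ne hca hcb]
    · rw [hm'nS v hvS]
  have hDsub : D ⊆ X N m a := Finset.filter_subset _ _
  have hDpos : 1 ≤ D.card := by
    rw [Nat.one_le_iff_ne_zero, ← Nat.pos_iff_ne_zero, Finset.card_pos]
    exact ⟨u, by rw [hD, Finset.mem_filter]; exact ⟨huX, huinS⟩⟩
  have hDle : D.card ≤ 2 := by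
    have h1 : (D.erase u).card ≤ 1 := by
      rw [Finset.card_le_one]
      intro x hx y hy
      rw [Finset.mem_erase, hD, Finset.mem_filter] at hx hy
      exact walk_endpoint_unique hpa hpb hau hx.2.2 hy.2.2 hx.1 hy.1
        (Or.inl (hg.miss x (mem_X.mp hx.2.1).1 a (mem_X.mp hx.2.1).2))
        (Or.inl (hg.miss y (mem_X.mp hy.2.1).1 a (mem_X.mp hy.2.1).2))
    have h2 := Finset.pred_card_le_card_erase (s := D) (a := u)
    omega
  have hDdisj : Disjoint (X N m b) D := by
    rw [Finset.disjoint_left]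
    intro v hv hvD
    rw [hD, Finset.mem_filter] at hvD
    exact huS v hvD.2 hv
  have hcA : (X N m' a).card = (X N m a).card - D.card := by
    rw [hXa, Finset.card_sdiff_of_subset hDsub]
  have hcB : (X N m' b).card = (X N m b).card + D.card := by
    rw [hXb, Finset.card_union_of_disjoint hDdisj]
  have hb' : b ∈ C.erase a := Finset.mem_erase.mpr ⟨hne.symm, hb⟩
  rw [← Finset.add_sum_erase C _ ha, ← Finset.add_sum_erase C _ ha,
    ← Finset.add_sum_erase (C.erase a) _ hb', ← Finset.add_sum_erase (C.erase a) _ hb']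
  have hrest : ∑ c ∈ (C.erase a).erase b, (X N m' c).card ^ 2
      = ∑ c ∈ (C.erase a).erase b, (X N m c).card ^ 2 := by
    apply Finset.sum_congr rfl
    intro c hc
    rw [Finset.mem_erase, Finset.mem_erase] at hc
    rw [hXc c hc.2.1 hc.1]
  rw [hrest, hcA, hcB]
  have hle : D.card ≤ (X N m a).card := Finset.card_le_card hDsub
  obtain ⟨A', hA'⟩ : ∃ A', (X N m a).card = A' + D.card := ⟨(X N m a).card - D.card, by omega⟩
  rw [hA'] at hab ⊢
  rw [Nat.add_sub_cancel]
  nlinarith

theorem sum_card_X {C : Finset κ} {N : Finset V} {m : V → Finset κ}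
    (hsub : ∀ u ∈ N, m u ⊆ C) : ∑ a ∈ C, (X N m a).card = ∑ u ∈ N, (m u).card := by
  classical
  have h := Finset.sum_card_bipartiteAbove_eq_sum_card_bipartiteBelow (s := C) (t := N)
    (fun a u => a ∈ m u)
  have h1 : ∀ a ∈ C, (Finset.bipartiteAbove (fun a u => a ∈ m u) N a).card = (X N m a).card := by
    intro a _
    rfl
  have h2 : ∀ u ∈ N, (Finset.bipartiteBelow (fun a u => a ∈ m u) C u).card = (m u).card := by
    intro u hu
    congr 1
    ext a
    rw [Finset.mem_bipartiteBelow]
    exact ⟨fun h => h.2, fun h => ⟨hsub u hu h, h⟩⟩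
  rw [Finset.sum_congr rfl h1, Finset.sum_congr rfl h2] at h
  exact h

/-- Extension lemma (Vizing / Ehrenfeucht-Faber-Kierstead): if at most `|C|` vertices `N` are
given, each missing two colours except possibly one missing at least one, one can recolour the
same graph so that the vertices of `N` miss distinct colours. -/
theorem extend [Nonempty κ] (k : ℕ) : ∀ (C : Finset κ) (π : κ → V → V) (N : Finset V) (u₀ : V),
    C.card = k → IsCol C π → N.card ≤ C.card →
    (∀ u ∈ N, u ≠ u₀ → ∃ m ⊆ C, m.card = 2 ∧ ∀ a ∈ m, π a u = u) →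
    (∀ u ∈ N, ∃ m ⊆ C, m.card = 1 ∧ ∀ a ∈ m, π a u = u) →
    ∃ (π' : κ → V → V) (f : V → κ), IsCol C π' ∧ (∀ u w, Rel C π' u w ↔ Rel C π u w) ∧
      (∀ u ∈ N, f u ∈ C ∧ π' (f u) u = u) ∧ Set.InjOn f N := by
  classical
  induction k with
  | zero =>
    intro C π N u₀ hC hcol hN h2 h1
    have hNe : N = ∅ := by
      rw [← Finset.card_eq_zero]; omega
    subst hNe
    exact ⟨π, fun _ => Classical.arbitrary κ, hcol, fun _ _ => Iff.rfl, by simp, by simp⟩
  | succ k ih =>
    intro C π N u₀ hC hcol hN h2 h1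
    rcases N.eq_empty_or_nonempty with hNe | hNe
    · subst hNe
      exact ⟨π, fun _ => Classical.arbitrary κ, hcol, fun _ _ => Iff.rfl, by simp, by simp⟩
    -- choose the special vertex
    obtain ⟨u₁, hu₁N, hu₁⟩ : ∃ u₁ ∈ N, ∀ u ∈ N, u ≠ u₁ → u ≠ u₀ := by
      by_cases h : u₀ ∈ N
      · exact ⟨u₀, h, fun u _ h => h⟩
      · obtain ⟨v, hv⟩ := hNe
        exact ⟨v, hv, fun u hu _ e => h (e ▸ hu)⟩
    let wt : V → ℕ := fun u => if u = u₁ then 1 else 2
    have hinit : ∀ u, ∃ m : Finset κ, u ∈ N → (m ⊆ C ∧ m.card = wt u ∧ ∀ a ∈ m, π a u = u) := by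
      intro u
      by_cases hu : u ∈ N
      · by_cases huu : u = u₁
        · obtain ⟨m, hm⟩ := h1 u hu
          exact ⟨m, fun _ => ⟨hm.1, by simp [wt, huu, hm.2.1], hm.2.2⟩⟩
        · obtain ⟨m, hm⟩ := h2 u hu (hu₁ u hu huu)
          exact ⟨m, fun _ => ⟨hm.1, by simp [wt, huu, hm.2.1], hm.2.2⟩⟩
      · exact ⟨∅, fun h => absurd h hu⟩
    choose m₀ hm₀ using hinit
    have hgood0 : Good C (Rel C π) N wt π m₀ :=
      ⟨hcol, fun _ _ => Iff.rfl, fun u hu => (hm₀ u hu).1, fun u hu => (hm₀ u hu).2.2,
        fun u hu => (hm₀ u hu).2.1⟩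
    have hexmin : ∃ n, ∃ π' m', Good C (Rel C π) N wt π' m' ∧
        ∑ c ∈ C, (X N m' c).card ^ 2 = n := ⟨_, π, m₀, hgood0, rfl⟩
    obtain ⟨π₁, m₁, hg, hΦ⟩ := Nat.find_spec hexmin
    have hbal : ∀ a ∈ C, ∀ b ∈ C, (X N m₁ a).card ≤ (X N m₁ b).card + 2 := by
      intro a ha b hb
      by_contra hcon
      push Not at hcon
      obtain ⟨π', m', hg', hlt⟩ := swap_step hg ha hb hcon
      rw [hΦ] at hlt
      exact Nat.find_min hexmin hlt ⟨π', m', hg', rfl⟩
    have hsum : ∑ a ∈ C, (X N m₁ a).card + 1 = 2 * N.card := by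
      rw [sum_card_X hg.sub, Finset.sum_congr rfl hg.card]
      have : ∑ u ∈ N, wt u = wt u₁ + ∑ u ∈ N.erase u₁, wt u :=
        (Finset.add_sum_erase N wt hu₁N).symm
      have h3 : ∑ u ∈ N.erase u₁, wt u = ∑ u ∈ N.erase u₁, 2 := by
        apply Finset.sum_congr rfl
        intro u hu
        have := (Finset.mem_erase.mp hu).1
        simp [wt, this]
      have h4 : wt u₁ = 1 := by simp [wt]
      have h5 : (N.erase u₁).card = N.card - 1 := Finset.card_erase_of_mem hu₁N
      have h6 : 1 ≤ N.card := Finset.card_pos.mpr ⟨u₁, hu₁N⟩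
      rw [this, h3, h4, Finset.sum_const, h5, smul_eq_mul]
      omega
    obtain ⟨a, haC, haX⟩ : ∃ a ∈ C, (X N m₁ a).card = 1 := by
      by_contra hcon
      push Not at hcon
      by_cases hz : ∃ b ∈ C, (X N m₁ b).card = 0
      · obtain ⟨b, hb, hb0⟩ := hz
        have heven : ∀ c ∈ C, Even (X N m₁ c).card := by
          intro c hc
          have h3 := hbal c hc b hb
          have h4 := hcon c hc
          have : (X N m₁ c).card = 0 ∨ (X N m₁ c).card = 2 := by omega
          rcases this with h | h <;> rw [h] <;> decide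
        have := Finset.even_sum _ heven
        obtain ⟨r, hr⟩ := this
        omega
      · push Not at hz
        have h3 : ∀ c ∈ C, 2 ≤ (X N m₁ c).card := by
          intro c hc
          have := hcon c hc
          have := hz c hc
          omega
        have h4 : ∑ c ∈ C, 2 ≤ ∑ c ∈ C, (X N m₁ c).card := Finset.sum_le_sum h3
        rw [Finset.sum_const, smul_eq_mul] at h4
        omega
    obtain ⟨v, hv⟩ := Finset.card_eq_one.mp haX
    have hvX : v ∈ X N m₁ a := by rw [hv]; exact Finset.mem_singleton_self v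
    have hvN := (mem_X.mp hvX).1
    have hva : π₁ a v = v := hg.miss v hvN a (mem_X.mp hvX).2
    have hnotmark : ∀ u ∈ N, u ≠ v → a ∉ m₁ u := by
      intro u hu huv h
      have : u ∈ X N m₁ a := mem_X.mpr ⟨hu, h⟩
      rw [hv, Finset.mem_singleton] at this
      exact huv this
    have hcardC : (C.erase a).card = k := by
      rw [Finset.card_erase_of_mem haC, hC]; rfl
    have hcardN : (N.erase v).card = N.card - 1 := Finset.card_erase_of_mem hvN
    have hcol' : IsCol (C.erase a) π₁ :=
      ⟨fun b hb => hg.col.inv b (Finset.mem_of_mem_erase hb),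
       fun b hb c hc => hg.col.disj b (Finset.mem_of_mem_erase hb) c (Finset.mem_of_mem_erase hc)⟩
    obtain ⟨π₂, f₂, hcol₂, hrel₂, hf₂, hinj₂⟩ := ih (C.erase a) π₁ (N.erase v) u₁ hcardC hcol'
      (by omega)
      (by
        intro u hu huu
        have hu' := Finset.mem_erase.mp hu
        refine ⟨m₁ u, ?_, ?_, hg.miss u hu'.2⟩
        · intro c hc
          rw [Finset.mem_erase]
          exact ⟨fun e => hnotmark u hu'.2 hu'.1 (e ▸ hc), hg.sub u hu'.2 hc⟩
        · rw [hg.card u hu'.2]; simp [wt, huu])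
      (by
        intro u hu
        have hu' := Finset.mem_erase.mp hu
        have hpos : 0 < (m₁ u).card := by
          rw [hg.card u hu'.2]
          by_cases h : u = u₁ <;> simp [wt, h]
        obtain ⟨c, hc⟩ := Finset.card_pos.mp hpos
        refine ⟨{c}, ?_, Finset.card_singleton c, ?_⟩
        · rw [Finset.singleton_subset_iff, Finset.mem_erase]
          exact ⟨fun e => hnotmark u hu'.2 hu'.1 (e ▸ hc), hg.sub u hu'.2 hc⟩
        · intro b hb
          rw [Finset.mem_singleton] at hb
          rw [hb]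
          exact hg.miss u hu'.2 c hc)
    let π₃ : κ → V → V := fun c => if c = a then π₁ a else π₂ c
    have h3a : π₃ a = π₁ a := by simp [π₃]
    have h3ne : ∀ c, c ≠ a → π₃ c = π₂ c := fun c hc => by simp [π₃, hc]
    have hdis : ∀ c ∈ C, c ≠ a → ∀ u, π₁ a u = π₂ c u → π₂ c u = u := by
      intro c hc hca u huu
      by_contra hne
      have hr : Rel (C.erase a) π₂ u (π₂ c u) :=
        ⟨fun e => hne e.symm, c, Finset.mem_erase.mpr ⟨hca, hc⟩, rfl⟩
      rw [hrel₂] at hr
      obtain ⟨_, d, hd, hdu⟩ := hr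
      have hd' := Finset.mem_erase.mp hd
      have := hg.col.disj d hd'.2 a haC hd'.1 u (by rw [hdu, ← huu])
      rw [hdu] at this
      exact hne this
    refine ⟨π₃, fun u => if u = v then a else f₂ u, ⟨?_, ?_⟩, ?_, ?_, ?_⟩
    · intro c hc u
      by_cases hca : c = a
      · subst hca; rw [h3a]; exact hg.col.inv c hc u
      · rw [h3ne c hca]
        exact hcol₂.inv c (Finset.mem_erase.mpr ⟨hca, hc⟩) u
    · intro c hc d hd hcd u huu
      by_cases hca : c = a
      · subst hca
        have hda : d ≠ c := fun e => hcd e.symm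
        rw [h3a, h3ne d hda] at huu
        rw [h3a, huu]
        exact hdis d hd hda u huu
      · by_cases hda : d = a
        · subst hda
          rw [h3a, h3ne c hca] at huu
          rw [h3ne c hca]
          exact hdis c hc hca u huu.symm
        · rw [h3ne c hca, h3ne d hda] at huu
          rw [h3ne c hca]
          exact hcol₂.disj c (Finset.mem_erase.mpr ⟨hca, hc⟩) d (Finset.mem_erase.mpr ⟨hda, hd⟩)
            hcd u huu
    · intro u w
      rw [← hg.rel u w]
      constructor
      · rintro ⟨hne, c, hc, hcu⟩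
        by_cases hca : c = a
        · subst hca
          rw [h3a] at hcu
          exact ⟨hne, c, hc, hcu⟩
        · rw [h3ne c hca] at hcu
          have : Rel (C.erase a) π₂ u w := ⟨hne, c, Finset.mem_erase.mpr ⟨hca, hc⟩, hcu⟩
          rw [hrel₂] at this
          obtain ⟨_, d, hd, hdu⟩ := this
          exact ⟨hne, d, (Finset.mem_erase.mp hd).2, hdu⟩
      · rintro ⟨hne, c, hc, hcu⟩
        by_cases hca : c = a
        · subst hca
          exact ⟨hne, c, hc, by rw [h3a]; exact hcu⟩
        · have : Rel (C.erase a) π₁ u w := ⟨hne, c, Finset.mem_erase.mpr ⟨hca, hc⟩, hcu⟩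
          rw [← hrel₂] at this
          obtain ⟨_, d, hd, hdu⟩ := this
          have hd' := Finset.mem_erase.mp hd
          exact ⟨hne, d, hd'.2, by rw [h3ne d hd'.1]; exact hdu⟩
    · intro u hu
      by_cases huv : u = v
      · subst huv
        simp only [if_true]
        exact ⟨haC, by rw [h3a]; exact hva⟩
      · simp only [if_neg huv]
        have h := hf₂ u (Finset.mem_erase.mpr ⟨huv, hu⟩)
        have h' := Finset.mem_erase.mp h.1
        exact ⟨h'.2, by rw [h3ne _ h'.1]; exact h.2⟩
    · intro u hu w hw huw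
      have hu := Finset.mem_coe.mp hu
      have hw := Finset.mem_coe.mp hw
      simp only at huw
      by_cases huv : u = v
      · by_cases hwv : w = v
        · rw [huv, hwv]
        · rw [if_pos huv, if_neg hwv] at huw
          have h := hf₂ w (Finset.mem_erase.mpr ⟨hwv, hw⟩)
          exact absurd huw.symm (Finset.mem_erase.mp h.1).1
      · by_cases hwv : w = v
        · rw [if_neg huv, if_pos hwv] at huw
          have h := hf₂ u (Finset.mem_erase.mpr ⟨huv, hu⟩)
          exact absurd huw (Finset.mem_erase.mp h.1).1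
        · rw [if_neg huv, if_neg hwv] at huw
          exact hinj₂ (Finset.mem_coe.mpr (Finset.mem_erase.mpr ⟨huv, hu⟩))
            (Finset.mem_coe.mpr (Finset.mem_erase.mpr ⟨hwv, hw⟩)) huw

end Pool.Agent.Lib_MP_ce52b8_co
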