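import Pool.Agent.Lib_MP_ce52b8_co.Extend

set_option autoImplicit false

namespace Pool.Agent.Lib_MP_ce52b8_co

open Finset

variable {V : Type*}

/-- Adding one vertex `x` joined to the vertices of `N` by the missing colours `f`. -/
theorem add_vertex {κ : Type*} [DecidableEq V] [DecidableEq κ] {C : Finset κ}
    {π : κ → V → V} (hcol : IsCol C π)
    {N : Finset V} {x : V} (hxN : x ∉ N) (hx : ∀ a ∈ C, π a x = x) {f : V → κ}
    (hfC : ∀ u ∈ N, f u ∈ C) (hfm : ∀ u ∈ N, π (f u) u = u) (hinj : Set.InjOn f N) :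
    ∃ π' : κ → V → V, IsCol C π' ∧ ∀ u w, Rel C π' u w ↔
      (Rel C π u w ∨ (u = x ∧ w ∈ N) ∨ (w = x ∧ u ∈ N)) := by
  classical
  -- the partner of x in colour a
  have hg : ∀ a : κ, ∃ g : V, (g = x ∧ ∀ y ∈ N, f y ≠ a) ∨ (g ∈ N ∧ f g = a) := by
    intro a
    by_cases h : ∃ y ∈ N, f y = a
    · obtain ⟨y, hy, hfy⟩ := h
      exact ⟨y, Or.inr ⟨hy, hfy⟩⟩
    · push Not at h
      exact ⟨x, Or.inl ⟨rfl, h⟩⟩
  choose g hg using hg
  let π' : κ → V → V := fun a u =>
    if u = x then g a else if u ∈ N ∧ f u = a then x else π a u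
  have h1 : ∀ a, π' a x = g a := fun a => by simp [π']
  have h2 : ∀ a u, u ≠ x → (u ∈ N ∧ f u = a) → π' a u = x := fun a u hu h => by
    simp only [π', if_neg hu]
    exact if_pos h
  have h3 : ∀ a u, u ≠ x → ¬ (u ∈ N ∧ f u = a) → π' a u = π a u := fun a u hu h => by
    simp only [π', if_neg hu]
    exact if_neg h
  have hne : ∀ a ∈ C, ∀ u, u ≠ x → π a u ≠ x := by
    intro a ha u hu h
    apply hu
    rw [← hcol.inv a ha u, h, hx a ha]
  have hNx : ∀ u ∈ N, u ≠ x := fun u hu h => hxN (h ▸ hu)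
  refine ⟨π', ⟨?_, ?_⟩, ?_⟩
  · intro a ha u
    by_cases hux : u = x
    · subst hux
      rw [h1]
      rcases hg a with ⟨hga, hN⟩ | ⟨hgN, hfa⟩
      · rw [hga, h1, hga]
      · exact h2 a _ (hNx _ hgN) ⟨hgN, hfa⟩
    · by_cases hc : u ∈ N ∧ f u = a
      · rw [h2 a u hux hc, h1]
        rcases hg a with ⟨_, hN⟩ | ⟨hgN, hfa⟩
        · exact absurd hc.2 (hN u hc.1)
        · exact hinj (mem_coe.mpr hgN) (mem_coe.mpr hc.1) (hfa.trans hc.2.symm)
      · rw [h3 a u hux hc]
        have hw := hne a ha u hux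
        have hc' : ¬ (π a u ∈ N ∧ f (π a u) = a) := by
          rintro ⟨hN, hf⟩
          have := hfm _ hN
          rw [hf, hcol.inv a ha] at this
          apply hc
          rw [this]
          exact ⟨hN, hf⟩
        rw [h3 a _ hw hc', hcol.inv a ha]
  · intro a ha b hb hab u huu
    by_cases hux : u = x
    · subst hux
      rw [h1, h1] at huu
      rw [h1]
      rcases hg a with ⟨hga, _⟩ | ⟨hgN, hfa⟩
      · exact hga
      · rcases hg b with ⟨hgb, _⟩ | ⟨hgN', hfb⟩
        · rw [huu, hgb]
        · exfalso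
          apply hab
          rw [← hfa, ← hfb, huu]
    · by_cases hca : u ∈ N ∧ f u = a
      · have hcb : ¬ (u ∈ N ∧ f u = b) := fun h => hab (hca.2.symm.trans h.2)
        rw [h2 a u hux hca, h3 b u hux hcb] at huu
        exact absurd huu.symm (hne b hb u hux)
      · by_cases hcb : u ∈ N ∧ f u = b
        · rw [h3 a u hux hca, h2 b u hux hcb] at huu
          exact absurd huu (hne a ha u hux)
        · rw [h3 a u hux hca, h3 b u hux hcb] at huu
          rw [h3 a u hux hca]
          exact hcol.disj a ha b hb hab u huu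
  · intro u w
    constructor
    · rintro ⟨hne', a, ha, hau⟩
      by_cases hux : u = x
      · subst hux
        rw [h1] at hau
        rcases hg a with ⟨hga, _⟩ | ⟨hgN, hfa⟩
        · exact absurd (hga.symm.trans hau) hne'
        · right; left
          exact ⟨rfl, hau ▸ hgN⟩
      · by_cases hca : u ∈ N ∧ f u = a
        · rw [h2 a u hux hca] at hau
          right; right
          exact ⟨hau.symm, hca.1⟩
        · rw [h3 a u hux hca] at hau
          left
          exact ⟨hne', a, ha, hau⟩
    · rintro (⟨hne', a, ha, hau⟩ | ⟨rfl, hw⟩ | ⟨rfl, hu⟩)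
      · have hux : u ≠ x := by
          rintro rfl
          rw [hx a ha] at hau
          exact hne' hau
        have hca : ¬ (u ∈ N ∧ f u = a) := by
          rintro ⟨hN, hf⟩
          have := hfm u hN
          rw [hf, hau] at this
          exact hne' this.symm
        exact ⟨hne', a, ha, by rw [h3 a u hux hca, hau]⟩
      · refine ⟨fun h => hNx w hw h.symm, f w, hfC w hw, ?_⟩
        rw [h1]
        rcases hg (f w) with ⟨_, hN⟩ | ⟨hgN, hfa⟩
        · exact absurd rfl (hN w hw)
        · exact hinj (mem_coe.mpr hgN) (mem_coe.mpr hw) hfa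
      · exact ⟨hNx u hu, f u, hfC u hu, h2 _ u (hNx u hu) ⟨hu, rfl⟩⟩

/-- The vertex-by-vertex colouring criterion. -/
theorem finite_colouring (H : V → V → Prop) (hsymm : ∀ u w, H u w → H w u)
    (hirr : ∀ u, ¬ H u u) (Δ : ℕ) (hΔ : 1 ≤ Δ)
    (hT : ∀ S : Finset V, S.Nonempty → ∃ x ∈ S, ∃ u₀ : V,
      ({w ∈ (S : Set V) | H x w}).ncard ≤ Δ ∧
      ∀ y ∈ S, H x y → (y ≠ u₀ → ({w ∈ (S : Set V) | H y w}).ncard + 1 ≤ Δ) ∧
        ({w ∈ (S : Set V) | H y w}).ncard ≤ Δ) (n : ℕ) :
    ∀ S : Finset V, S.card = n → ∃ π : Fin Δ → V → V, IsCol univ π ∧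
      ∀ u w, Rel univ π u w ↔ (u ∈ S ∧ w ∈ S ∧ H u w) := by
  classical
  have : Nonempty (Fin Δ) := ⟨⟨0, hΔ⟩⟩
  induction n with
  | zero =>
    intro S hS
    rw [Finset.card_eq_zero] at hS
    subst hS
    refine ⟨fun _ u => u, ⟨fun _ _ _ => rfl, fun _ _ _ _ _ _ _ => rfl⟩, ?_⟩
    intro u w
    constructor
    · rintro ⟨hne, a, _, h⟩
      exact absurd h hne
    · rintro ⟨h, _⟩
      simp at h
  | succ n ih =>
    intro S hS
    have hne : S.Nonempty := by
      rw [← Finset.card_pos]; omega
    obtain ⟨x, hxS, u₀, hdx, hT'⟩ := hT S hne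
    obtain ⟨π, hcol, hrel⟩ := ih (S.erase x) (by rw [Finset.card_erase_of_mem hxS, hS]; rfl)
    have hxfix : ∀ a ∈ (univ : Finset (Fin Δ)), π a x = x := by
      intro a ha
      by_contra hcon
      have : Rel univ π x (π a x) := ⟨fun h => hcon h.symm, a, ha, rfl⟩
      rw [hrel] at this
      exact (Finset.mem_erase.mp this.1).1 rfl
    set N : Finset V := S.filter (fun y => H x y) with hN
    have hxN : x ∉ N := by
      rw [hN, Finset.mem_filter]
      exact fun h => hirr x h.2
    have hncard : ∀ y, ({w ∈ (S : Set V) | H y w}).ncard = (S.filter (fun w => H y w)).card := by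
      intro y
      rw [← Set.ncard_coe_finset]
      congr 1
      ext w; simp
    have hNcard : N.card ≤ (univ : Finset (Fin Δ)).card := by
      rw [Finset.card_univ, Fintype.card_fin, hN, ← hncard]
      exact hdx
    -- missing colours
    have hmiss : ∀ y ∈ N, Δ + 1 ≤
        ((univ : Finset (Fin Δ)).filter (fun a => π a y = y)).card +
          (S.filter (fun w => H y w)).card := by
      intro y hy
      have hyS := (Finset.mem_filter.mp hy).1
      have hxy := (Finset.mem_filter.mp hy).2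
      have hyx : y ≠ x := fun h => hxN (h ▸ hy)
      have h1 : ((univ : Finset (Fin Δ)).filter (fun a => π a y = y)).card +
          ((univ : Finset (Fin Δ)).filter (fun a => ¬ π a y = y)).card = Δ := by
        rw [Finset.card_filter_add_card_filter_not, Finset.card_univ, Fintype.card_fin]
      have h2 : ((univ : Finset (Fin Δ)).filter (fun a => ¬ π a y = y)).card ≤
          ((S.filter (fun w => H y w)).erase x).card := by
        apply Finset.card_le_card_of_injOn (fun a => π a y)
        · intro a ha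
          have ha' := (Finset.mem_filter.mp ha).2
          have : Rel univ π y (π a y) := ⟨fun h => ha' h.symm, a, Finset.mem_univ a, rfl⟩
          rw [hrel] at this
          have h3 := Finset.mem_erase.mp this.2.1
          simp only [Finset.coe_erase, Set.mem_sdiff, Finset.mem_coe, Finset.mem_filter,
            Set.mem_singleton_iff]
          exact ⟨⟨h3.2, this.2.2⟩, h3.1⟩
        · intro a ha b hb hab
          by_contra hne'
          have ha' := (Finset.mem_filter.mp ha).2
          exact ha' (hcol.disj a (Finset.mem_univ a) b (Finset.mem_univ b) hne' y hab)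
      have h3 : ((S.filter (fun w => H y w)).erase x).card + 1 =
          (S.filter (fun w => H y w)).card := by
        apply Finset.card_erase_add_one
        rw [Finset.mem_filter]
        exact ⟨hxS, hsymm _ _ hxy⟩
      omega
    have hsubset : ∀ y ∈ N, ∀ t, t ≤
        ((univ : Finset (Fin Δ)).filter (fun a => π a y = y)).card →
        ∃ m ⊆ (univ : Finset (Fin Δ)), m.card = t ∧ ∀ a ∈ m, π a y = y := by
      intro y hy t ht
      obtain ⟨m, hm, hmc⟩ := Finset.exists_subset_card_eq ht
      exact ⟨m, Finset.subset_univ m, hmc, fun a ha => (Finset.mem_filter.mp (hm ha)).2⟩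
    obtain ⟨π₁, f, hcol₁, hrel₁, hf, hinj⟩ := extend Δ univ π N u₀
      (by rw [Finset.card_univ, Fintype.card_fin]) hcol hNcard
      (by
        intro y hy hyu
        apply hsubset y hy 2
        have h1 := hmiss y hy
        have h2 := (hT' y (Finset.mem_filter.mp hy).1 (Finset.mem_filter.mp hy).2).1 hyu
        rw [hncard] at h2
        omega)
      (by
        intro y hy
        apply hsubset y hy 1
        have h1 := hmiss y hy
        have h2 := (hT' y (Finset.mem_filter.mp hy).1 (Finset.mem_filter.mp hy).2).2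
        rw [hncard] at h2
        omega)
    have hxfix₁ : ∀ a ∈ (univ : Finset (Fin Δ)), π₁ a x = x := by
      intro a ha
      by_contra hcon
      have : Rel univ π₁ x (π₁ a x) := ⟨fun h => hcon h.symm, a, ha, rfl⟩
      rw [hrel₁, hrel] at this
      exact (Finset.mem_erase.mp this.1).1 rfl
    obtain ⟨π₂, hcol₂, hrel₂⟩ := add_vertex hcol₁ hxN hxfix₁ (fun u hu => (hf u hu).1)
      (fun u hu => (hf u hu).2) hinj
    refine ⟨π₂, hcol₂, ?_⟩
    intro u w
    rw [hrel₂, hrel₁, hrel]
    constructor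
    · rintro (⟨hu, hw, h⟩ | ⟨rfl, hw⟩ | ⟨rfl, hu⟩)
      · exact ⟨Finset.mem_of_mem_erase hu, Finset.mem_of_mem_erase hw, h⟩
      · exact ⟨hxS, (Finset.mem_filter.mp hw).1, (Finset.mem_filter.mp hw).2⟩
      · exact ⟨(Finset.mem_filter.mp hu).1, hxS, hsymm _ _ (Finset.mem_filter.mp hu).2⟩
    · rintro ⟨hu, hw, h⟩
      by_cases hux : u = x
      · subst hux
        right; left
        exact ⟨rfl, Finset.mem_filter.mpr ⟨hw, h⟩⟩
      · by_cases hwx : w = x
        · subst hwx
          right; right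
          exact ⟨rfl, Finset.mem_filter.mpr ⟨hu, hsymm _ _ h⟩⟩
        · left
          exact ⟨Finset.mem_erase.mpr ⟨hux, hu⟩, Finset.mem_erase.mpr ⟨hwx, hw⟩, h⟩

/-- Compactness: the criterion gives a proper edge colouring of the whole infinite graph. -/
theorem infinite_colouring (H : SimpleGraph V) (Δ : ℕ) (hΔ : 1 ≤ Δ)
    (hT : ∀ S : Finset V, S.Nonempty → ∃ x ∈ S, ∃ u₀ : V,
      ({w ∈ (S : Set V) | H.Adj x w}).ncard ≤ Δ ∧
      ∀ y ∈ S, H.Adj x y → (y ≠ u₀ → ({w ∈ (S : Set V) | H.Adj y w}).ncard + 1 ≤ Δ) ∧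
        ({w ∈ (S : Set V) | H.Adj y w}).ncard ≤ Δ) :
    H.lineGraph.Colorable Δ := by
  classical
  have hfin := finite_colouring H.Adj (fun u w h => h.symm) (fun u h => H.loopless.irrefl u h) Δ hΔ hT
  have key : ∀ G' : H.lineGraph.Subgraph, G'.verts.Finite →
      Nonempty (G'.coe →g (⊤ : SimpleGraph (Fin Δ))) := by
    intro G' hG'
    -- the finite set of endpoints
    let F : Finset H.edgeSet := hG'.toFinset
    have hex : ∃ S : Finset V, ∀ e ∈ F, ∀ v ∈ (e : Sym2 V), v ∈ S := by
      refine ⟨F.biUnion (fun e => (e : Sym2 V).toFinset), ?_⟩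
      intro e he v hv
      rw [Finset.mem_biUnion]
      exact ⟨e, he, by simpa using hv⟩
    obtain ⟨S, hS⟩ := hex
    obtain ⟨π, hcol, hrel⟩ := hfin S.card S rfl
    have hcolour : ∀ e : H.edgeSet, ∃ a : Fin Δ, e ∈ F → ∀ u w, (e : Sym2 V) = s(u, w) →
        π a u = w := by
      intro e
      by_cases he : e ∈ F
      · obtain ⟨e, hee⟩ := e
        induction e using Sym2.ind with
        | _ u w =>
          have hu : u ∈ S := hS _ he u (by simp)
          have hw : w ∈ S := hS _ he w (by simp)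
          have hadj : H.Adj u w := hee
          obtain ⟨_, a, _, ha⟩ := (hrel u w).mpr ⟨hu, hw, hadj⟩
          refine ⟨a, fun _ u' w' h => ?_⟩
          rw [Sym2.eq_iff] at h
          rcases h with ⟨rfl, rfl⟩ | ⟨rfl, rfl⟩
          · exact ha
          · rw [← ha, hcol.inv a (Finset.mem_univ a)]
      · exact ⟨⟨0, hΔ⟩, fun h => absurd h he⟩
    choose c hc using hcolour
    refine ⟨⟨fun e => c e.1, ?_⟩⟩
    rintro ⟨e, he⟩ ⟨e', he'⟩ hadj
    have hadj' : H.lineGraph.Adj e e' := G'.adj_sub hadj
    rw [SimpleGraph.lineGraph_adj_iff_exists] at hadj'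
    obtain ⟨hne, v, hv, hv'⟩ := hadj'
    simp only [SimpleGraph.top_adj, ne_eq]
    intro heq
    obtain ⟨w, hw⟩ := hv
    obtain ⟨w', hw'⟩ := hv'
    have heF : e ∈ F := by simpa [F] using he
    have heF' : e' ∈ F := by simpa [F] using he'
    have h1 := hc e heF v w hw
    have h2 := hc e' heF' v w' hw'
    rw [heq, h2] at h1
    apply hne
    apply Subtype.ext
    rw [hw, hw', h1]
  exact SimpleGraph.nonempty_hom_of_forall_finite_subgraph_hom
    (fun G' hG' => (key G' hG').some)

end Pool.Agent.Lib_MP_ce52b8_co
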