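import Pool.Agent.Lib_MP_ce52b8_co.Struct

set_option autoImplicit false

namespace Pool.Agent.Lib_MP_ce52b8_co

variable {V : Type*}

theorem count_block {G : SimpleGraph V} {o v : V} {β : V → ℤ} {f : Equiv.Perm V}
    (hf : IsAut G f) (hfo : f o = v) (ε : ℤ) (hε : ε = 1 ∨ ε = -1)
    (hβ : ∀ w, β (f w) = ε * β w + β v) (j : ℤ) :
    {w | G.Adj v w ∧ β w = β v + j}.ncard = {w | G.Adj o w ∧ β w = ε * j}.ncard := by
  have : {w | G.Adj v w ∧ β w = β v + j} = f '' {w | G.Adj o w ∧ β w = ε * j} := by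
    ext w
    constructor
    · rintro ⟨h1, h2⟩
      refine ⟨f⁻¹ w, ⟨?_, ?_⟩, by simp⟩
      · rw [← hf, hfo]; simpa using h1
      · have h3 := hβ (f⁻¹ w)
        have h4 : f (f⁻¹ w) = w := by simp
        rw [h4] at h3
        rcases hε with rfl | rfl <;> omega
    · rintro ⟨w', ⟨h1, h2⟩, rfl⟩
      refine ⟨?_, ?_⟩
      · rw [← hfo]; exact (hf o w').mpr h1
      · rw [hβ, h2]
        rcases hε with rfl | rfl <;> ring
  rw [this, Set.ncard_image_of_injective _ f.injective]

theorem block_image {v : V} {β : V → ℤ} {f : Equiv.Perm V}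
    (ε : ℤ) (hε : ε = 1 ∨ ε = -1)
    (hβ : ∀ w, β (f w) = ε * β w + β v) :
    β ⁻¹' {β v} = f '' (β ⁻¹' {0}) := by
  ext w
  simp only [Set.mem_preimage, Set.mem_singleton_iff, Set.mem_image]
  constructor
  · intro h
    refine ⟨f⁻¹ w, ?_, by simp⟩
    have h3 := hβ (f⁻¹ w)
    have h4 : f (f⁻¹ w) = w := by simp
    rw [h4] at h3
    rcases hε with rfl | rfl <;> omega
  · rintro ⟨w', h, rfl⟩
    rw [hβ, h]
    ring

theorem double_count {G : SimpleGraph V} {B₀ B₁ : Set V} (h₀ : B₀.Finite) (h₁ : B₁.Finite)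
    (hcard : B₀.ncard = B₁.ncard) (hne : B₀.Nonempty) {a b : ℕ}
    (ha : ∀ v ∈ B₀, {w | G.Adj v w ∧ w ∈ B₁}.ncard = a)
    (hb : ∀ w ∈ B₁, {v | G.Adj w v ∧ v ∈ B₀}.ncard = b) : a = b := by
  classical
  have := Finset.card_mul_eq_card_mul (s := h₀.toFinset) (t := h₁.toFinset)
    (fun v w => G.Adj v w) (m := a) (n := b)
    (by
      intro v hv
      rw [← ha v (by simpa using hv), ← Set.ncard_coe_finset]
      congr 1
      ext w
      simp [and_comm])
    (by
      intro w hw
      rw [← hb w (by simpa using hw), ← Set.ncard_coe_finset]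
      congr 1
      ext v
      simp [and_comm, G.adj_comm])
  rw [← Set.ncard_eq_toFinset_card B₀ h₀, ← Set.ncard_eq_toFinset_card B₁ h₁, ← hcard] at this
  have hpos : 0 < B₀.ncard := (Set.ncard_pos h₀).mpr hne
  exact Nat.eq_of_mul_eq_mul_left hpos this

/-- From a height function with enough symmetries to the dihedral block structure. -/
theorem height_conclude {G : SimpleGraph V} {o : V} {β : V → ℤ} (ho : β o = 0)
    (hfin0 : (β ⁻¹' {0}).Finite) (hsurj : ∀ n, (β ⁻¹' {n}).Nonempty) (ε : ℤ → ℤ)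
    (hεval : ∀ n, ε n = 1 ∨ ε n = -1) (hεcase : (∀ n, ε n = 1) ∨ (∀ n, ε n = sg n))
    (hsym : ∀ v, ∃ f : Equiv.Perm V, IsAut G f ∧ f o = v ∧ ∀ w, β (f w) = ε (β v) * β w + β v) :
    ∃ α : ℤ → ℕ, (∀ n, (β ⁻¹' {n}).Finite) ∧
      (∀ v j, {w | G.Adj v w ∧ β w = β v + j}.ncard = α (sg (β v) * j)) ∧
      (∀ j, j % 2 = 0 → α (-j) = α j) := by
  have hblock : ∀ n, ∃ f : Equiv.Perm V, β ⁻¹' {n} = f '' (β ⁻¹' {0}) := by
    intro n
    obtain ⟨v, hv⟩ := hsurj n
    have hv : β v = n := hv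
    obtain ⟨f, hf, hfo, hfβ⟩ := hsym v
    refine ⟨f, ?_⟩
    rw [← hv]
    exact block_image (ε (β v)) (hεval _) hfβ
  have hfin : ∀ n, (β ⁻¹' {n}).Finite := by
    intro n
    obtain ⟨f, hf⟩ := hblock n
    rw [hf]
    exact hfin0.image f
  have hsize : ∀ n, (β ⁻¹' {n}).ncard = (β ⁻¹' {0}).ncard := by
    intro n
    obtain ⟨f, hf⟩ := hblock n
    rw [hf, Set.ncard_image_of_injective _ f.injective]
  let α : ℤ → ℕ := fun j => {w | G.Adj o w ∧ β w = j}.ncard
  have hcount : ∀ v j, {w | G.Adj v w ∧ β w = β v + j}.ncard = α (ε (β v) * j) := by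
    intro v j
    obtain ⟨f, hf, hfo, hfβ⟩ := hsym v
    exact count_block hf hfo (ε (β v)) (hεval _) hfβ j
  -- double counting between blocks 0 and j
  have hdc : ∀ j, α (ε 0 * j) = α (ε j * (-j)) := by
    intro j
    apply double_count (G := G) (hfin 0) (hfin j) (hsize j).symm (hsurj 0)
    · intro v hv
      have hv : β v = 0 := hv
      have := hcount v j
      rw [hv, zero_add] at this
      exact this
    · intro w hw
      have hw : β w = j := hw
      have := hcount w (-j)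
      rw [hw, add_neg_cancel] at this
      exact this
  refine ⟨α, hfin, ?_, ?_⟩
  · intro v j
    rw [hcount v j]
    rcases hεcase with h1 | h1
    · rw [h1]
      have h2 : α (-j) = α j := by
        have := hdc j
        rw [h1, h1, one_mul, one_mul] at this
        exact this.symm
      rcases sg_cases (β v) with h3 | h3
      · rw [h3.2]
      · rw [h3.2, one_mul, neg_one_mul, h2]
    · rw [h1]
  · intro j hj
    have := hdc j
    rcases hεcase with h1 | h1
    · rw [h1, h1, one_mul, one_mul] at this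
      exact this.symm
    · have h2 : sg 0 = 1 := by simp [sg]
      have h3 : sg j = 1 := by simp [sg, hj]
      rw [h1, h1, h2, h3, one_mul, one_mul] at this
      exact this.symm

theorem EndData.exists_height {G : SimpleGraph V} {o : V} {F U₀ U₁ : Set V}
    (h : EndData G o F U₀ U₁) (htrans : ∀ v, ∃ f : Equiv.Perm V, IsAut G f ∧ f o = v) :
    ∃ (β : V → ℤ) (α : ℤ → ℕ), (∀ n, (β ⁻¹' {n}).Finite) ∧ (∀ n, (β ⁻¹' {n}).Nonempty) ∧
      (∀ v j, {w | G.Adj v w ∧ β w = β v + j}.ncard = α (sg (β v) * j)) ∧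
      (∀ j, j % 2 = 0 → α (-j) = α j) := by
  classical
  -- (a) finiteness
  have hzero : {v | ∃ f, Plus G U₀ f ∧ f o = v ∧ tr U₀ f = 0}.Finite := by
    apply h.near.subset
    rintro v ⟨f, hf, hfo, hf0⟩
    refine ⟨f, hf.1, hfo, ?_⟩
    by_contra hcon
    exact h.tr_ne_zero hf hcon hf0
  -- dichotomy
  have hdich : ∀ f, IsAut G f → Plus G U₀ f ∨ Comm (f '' U₀) U₁ := by
    intro f hf
    rcases h.comm f hf with h1 | h1
    · exact Or.inl ⟨hf, h1⟩
    · exact Or.inr h1
  have hVinf : (Set.univ : Set V).Infinite := h.U₀inf.mono (Set.subset_univ _)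
  -- (b) nontrivial
  have hnontriv : ∃ f, Plus G U₀ f ∧ tr U₀ f ≠ 0 := by
    by_contra hcon
    push Not at hcon
    have hfinP : {v | ∃ f, Plus G U₀ f ∧ f o = v}.Finite := by
      apply hzero.subset
      rintro v ⟨f, hf, hfo⟩
      exact ⟨f, hf, hfo, hcon f hf⟩
    by_cases hm : ∃ d, IsAut G d ∧ Comm (d '' U₀) U₁
    · obtain ⟨d, hd, hd'⟩ := hm
      apply hVinf
      apply (hfinP.union (hfinP.image d)).subset
      intro v _
      obtain ⟨f, hf, hfo⟩ := htrans v
      rcases hdich f hf with h1 | h1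
      · exact Or.inl ⟨f, h1, hfo⟩
      · right
        refine ⟨(d⁻¹ * f) o, ⟨d⁻¹ * f, ?_, rfl⟩, ?_⟩
        · exact h.minus_mul_minus hd.inv (h.minus_inv hd') hf h1
        · simp [hfo]
    · push Not at hm
      apply hVinf
      apply hfinP.subset
      intro v _
      obtain ⟨f, hf, hfo⟩ := htrans v
      rcases hdich f hf with h1 | h1
      · exact ⟨f, h1, hfo⟩
      · exact absurd h1 (hm f hf)
  -- (c) generator
  let H : AddSubgroup ℤ :=
    { carrier := {n | ∃ f, Plus G U₀ f ∧ tr U₀ f = n}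
      add_mem' := by
        rintro _ _ ⟨f, hf, rfl⟩ ⟨g, hg, rfl⟩
        exact ⟨f * g, hf.mul hg, tr_mul hf hg⟩
      zero_mem' := ⟨1, Plus.one, tr_one⟩
      neg_mem' := by
        rintro _ ⟨f, hf, rfl⟩
        exact ⟨f⁻¹, hf.inv, tr_inv hf⟩ }
  obtain ⟨g, hg⟩ := Int.subgroup_cyclic H
  have hmem : ∀ n, n ∈ H ↔ ∃ q : ℤ, q * g = n := by
    intro n
    rw [hg, AddSubgroup.mem_closure_singleton]
    simp
  have hg0 : g ≠ 0 := by
    rintro rfl
    obtain ⟨f, hf, hf0⟩ := hnontriv
    have : tr U₀ f ∈ H := ⟨f, hf, rfl⟩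
    rw [hmem] at this
    obtain ⟨q, hq⟩ := this
    rw [mul_zero] at hq
    exact hf0 hq.symm
  have hqex : ∀ f : Equiv.Perm V, ∃ q : ℤ, Plus G U₀ f → tr U₀ f = q * g := by
    intro f
    by_cases hf : Plus G U₀ f
    · have : tr U₀ f ∈ H := ⟨f, hf, rfl⟩
      rw [hmem] at this
      obtain ⟨q, hq⟩ := this
      exact ⟨q, fun _ => hq.symm⟩
    · exact ⟨0, fun h => absurd h hf⟩
  choose q hq using hqex
  have hqmul : ∀ f f', Plus G U₀ f → Plus G U₀ f' → q (f * f') = q f + q f' := by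
    intro f f' hf hf'
    have h1 := tr_mul hf hf'
    rw [hq _ (hf.mul hf'), hq f hf, hq f' hf'] at h1
    have : (q (f * f') - (q f + q f')) * g = 0 := by linarith
    rcases mul_eq_zero.mp this with h2 | h2
    · omega
    · exact absurd h2 hg0
  have hqeq : ∀ f f', Plus G U₀ f → Plus G U₀ f' → f o = f' o → q f = q f' := by
    intro f f' hf hf' hoo
    have h1 := h.tr_eq_of_image hf hf' hoo
    rw [hq f hf, hq f' hf'] at h1
    exact mul_right_cancel₀ hg0 h1
  have hqtr : ∀ f, Plus G U₀ f → q f = 0 → tr U₀ f = 0 := by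
    intro f hf h0
    rw [hq f hf, h0, zero_mul]
  have hqsurj : ∀ n : ℤ, ∃ f, Plus G U₀ f ∧ q f = n := by
    intro n
    have : n * g ∈ H := (hmem _).mpr ⟨n, rfl⟩
    obtain ⟨f, hf, hfn⟩ := this
    refine ⟨f, hf, ?_⟩
    rw [hq f hf] at hfn
    exact mul_right_cancel₀ hg0 hfn
  have hqfix : ∀ f, Plus G U₀ f → f o = o → q f = 0 := by
    intro f hf hfo
    have h1 := h.tr_fix hf hfo
    rw [hq f hf] at h1
    rcases mul_eq_zero.mp h1 with h2 | h2
    · exact h2
    · exact absurd h2 hg0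
  by_cases hcase : ∀ v, ∃ f, Plus G U₀ f ∧ f o = v
  · -- Case I
    choose γ hγ hγo using hcase
    let β : V → ℤ := fun v => q (γ v)
    have hβ : ∀ f, Plus G U₀ f → ∀ w, β (f w) = q f + β w := by
      intro f hf w
      have : q (γ (f w)) = q (f * γ w) := by
        apply hqeq _ _ (hγ _) (hf.mul (hγ w))
        rw [hγo, Equiv.Perm.mul_apply, hγo]
      change q (γ (f w)) = q f + q (γ w)
      rw [this, hqmul f (γ w) hf (hγ w)]
    have hβo : β o = 0 := hqfix _ (hγ o) (hγo o)
    have hfin0 : (β ⁻¹' {0}).Finite := by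
      apply hzero.subset
      intro v hv
      exact ⟨γ v, hγ v, hγo v, hqtr _ (hγ v) hv⟩
    have hsurj : ∀ n, (β ⁻¹' {n}).Nonempty := by
      intro n
      obtain ⟨f, hf, hfn⟩ := hqsurj n
      refine ⟨f o, ?_⟩
      change β (f o) = n
      rw [hβ f hf o, hβo, hfn, add_zero]
    obtain ⟨α, h1, h2, h3⟩ := height_conclude (G := G) hβo hfin0 hsurj (fun _ => 1)
      (fun _ => Or.inl rfl) (Or.inl fun _ => rfl) (by
        intro v
        refine ⟨γ v, (hγ v).1, hγo v, ?_⟩
        intro w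
        rw [hβ (γ v) (hγ v) w]
        change q (γ v) + β w = 1 * β w + q (γ v)
        ring)
    exact ⟨β, α, h1, hsurj, h2, h3⟩
  · -- Case II
    push Not at hcase
    obtain ⟨v₁, hv₁⟩ := hcase
    obtain ⟨d, hd, hdo⟩ := htrans v₁
    have hd' : Comm (d '' U₀) U₁ := by
      rcases hdich d hd with h1 | h1
      · exact absurd hdo (hv₁ d h1)
      · exact h1
    have hdd : Plus G U₀ (d * d) := h.minus_mul_minus hd hd' hd hd'
    have hconj : ∀ f, Plus G U₀ f → Plus G U₀ (d * f * d⁻¹) ∧ q (d * f * d⁻¹) = - q f := by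
      intro f hf
      obtain ⟨h1, h2⟩ := h.conj hd hd' hf
      refine ⟨h1, ?_⟩
      rw [hq _ h1, hq f hf] at h2
      have : (q (d * f * d⁻¹) + q f) * g = 0 := by linarith
      rcases mul_eq_zero.mp this with h3 | h3
      · omega
      · exact absurd h3 hg0
    have hddq : q (d * d) = 0 := by
      have h1 := (hconj (d * d) hdd).2
      have h2 : d * (d * d) * d⁻¹ = d * d := by group
      rw [h2] at h1
      omega
    -- type two elements
    have htype : ∀ v, (∃ f, Plus G U₀ f ∧ f o = v) ∨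
        ((¬ ∃ f, Plus G U₀ f ∧ f o = v) ∧ ∃ f, Plus G U₀ f ∧ (f * d) o = v) := by
      intro v
      by_cases hv : ∃ f, Plus G U₀ f ∧ f o = v
      · exact Or.inl hv
      · right
        refine ⟨hv, ?_⟩
        obtain ⟨f, hf, hfo⟩ := htrans v
        rcases hdich f hf with h1 | h1
        · exact absurd ⟨f, h1, hfo⟩ hv
        · refine ⟨f * d⁻¹, h.minus_mul_minus hf h1 hd.inv (h.minus_inv hd'), ?_⟩
          simp [hfo]
    -- a Plus element never maps o to a type two vertex, in particular: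
    have hex : ∀ v, ∃ n : ℤ, (∀ f, Plus G U₀ f → f o = v → n = 2 * q f) ∧
        (∀ f, Plus G U₀ f → (f * d) o = v → n = 2 * q f + 1) := by
      intro v
      have hexcl : ∀ f f', Plus G U₀ f → f o = v → Plus G U₀ f' → (f' * d) o = v → False := by
        intro f f' hf hfo hf' hfo'
        apply hv₁ (f'⁻¹ * f) (hf'.inv.mul hf)
        rw [Equiv.Perm.mul_apply, hfo, ← hfo', Equiv.Perm.mul_apply, hdo]
        simp
      rcases htype v with ⟨f, hf, hfo⟩ | ⟨hno, f, hf, hfo⟩
      · refine ⟨2 * q f, ?_, ?_⟩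
        · intro f' hf' hfo'
          rw [hqeq f f' hf hf' (hfo.trans hfo'.symm)]
        · intro f' hf' hfo'
          exact (hexcl f f' hf hfo hf' hfo').elim
      · refine ⟨2 * q f + 1, ?_, ?_⟩
        · intro f' hf' hfo'
          exact absurd ⟨f', hf', hfo'⟩ hno
        · intro f' hf' hfo'
          -- f'⁻¹ f fixes d o
          have h1 : Plus G U₀ (f'⁻¹ * f) := hf'.inv.mul hf
          have h2 : d⁻¹ * (f'⁻¹ * f) * d = d⁻¹ * (f'⁻¹ * f) * d := rfl
          -- conj by d⁻¹
          have hdinv := h.conj hd.inv (h.minus_inv hd') h1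
          rw [inv_inv] at hdinv
          have h3 : (d⁻¹ * (f'⁻¹ * f) * d) o = o := by
            have : f (d o) = f' (d o) := hfo.trans hfo'.symm
            simp only [Equiv.Perm.mul_apply, this]
            simp
          have h4 := h.tr_fix hdinv.1 h3
          rw [hdinv.2, tr_mul hf'.inv hf, tr_inv hf', hq f hf, hq f' hf'] at h4
          have h5 : (q f' - q f) * g = 0 := by linarith
          rcases mul_eq_zero.mp h5 with h6 | h6
          · omega
          · exact absurd h6 hg0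
    choose β hβ1 hβ2 using hex
    have hβo : β o = 0 := by
      rw [hβ1 o 1 Plus.one rfl, hqfix 1 Plus.one rfl, mul_zero]
    have hpar : ∀ v, ((∃ f, Plus G U₀ f ∧ f o = v ∧ β v = 2 * q f) ∧ sg (β v) = 1) ∨
        ((∃ f, Plus G U₀ f ∧ (f * d) o = v ∧ β v = 2 * q f + 1) ∧ sg (β v) = -1) := by
      intro v
      rcases htype v with ⟨f, hf, hfo⟩ | ⟨_, f, hf, hfo⟩
      · left
        have h1 := hβ1 v f hf hfo
        refine ⟨⟨f, hf, hfo, h1⟩, ?_⟩
        rw [h1]; unfold sg; rw [if_pos (by omega)]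
      · right
        have h1 := hβ2 v f hf hfo
        refine ⟨⟨f, hf, hfo, h1⟩, ?_⟩
        rw [h1]; unfold sg; rw [if_neg (by omega)]
    have hfin0 : (β ⁻¹' {0}).Finite := by
      apply hzero.subset
      intro v hv
      have hv : β v = 0 := hv
      rcases hpar v with ⟨⟨f, hf, hfo, hfb⟩, _⟩ | ⟨⟨f, hf, hfo, hfb⟩, _⟩
      · refine ⟨f, hf, hfo, hqtr f hf (by omega)⟩
      · exfalso; omega
    have hsurj : ∀ n, (β ⁻¹' {n}).Nonempty := by
      intro n
      rcases Int.emod_two_eq_zero_or_one n with hn | hn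
      · obtain ⟨f, hf, hfn⟩ := hqsurj (n / 2)
        refine ⟨f o, ?_⟩
        change β (f o) = n
        rw [hβ1 _ f hf rfl, hfn]; omega
      · obtain ⟨f, hf, hfn⟩ := hqsurj (n / 2)
        refine ⟨(f * d) o, ?_⟩
        change β ((f * d) o) = n
        rw [hβ2 _ f hf rfl, hfn]; omega
    obtain ⟨α, h1, h2, h3⟩ := height_conclude (G := G) hβo hfin0 hsurj sg
      (fun n => (sg_cases n).imp (fun h => h.2) (fun h => h.2)) (Or.inr fun _ => rfl) (by
        intro v
        rcases hpar v with ⟨⟨f, hf, hfo, hfb⟩, hsg⟩ | ⟨⟨f, hf, hfo, hfb⟩, hsg⟩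
        · refine ⟨f, hf.1, hfo, ?_⟩
          intro w
          rw [hsg, hfb, one_mul]
          rcases hpar w with ⟨⟨f', hf', hfo', hfb'⟩, _⟩ | ⟨⟨f', hf', hfo', hfb'⟩, _⟩
          · rw [hβ1 (f w) (f * f') (hf.mul hf') (by rw [Equiv.Perm.mul_apply, hfo']),
              hqmul f f' hf hf', hfb']
            ring
          · rw [hβ2 (f w) (f * f') (hf.mul hf') (by
                rw [mul_assoc, Equiv.Perm.mul_apply, hfo']), hqmul f f' hf hf', hfb']
            ring
        · refine ⟨f * d, hf.1.mul hd, hfo, ?_⟩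
          intro w
          rw [hsg, hfb]
          rcases hpar w with ⟨⟨f', hf', hfo', hfb'⟩, _⟩ | ⟨⟨f', hf', hfo', hfb'⟩, _⟩
          · have hc := hconj f' hf'
            rw [hβ2 ((f * d) w) (f * (d * f' * d⁻¹)) (hf.mul hc.1) (by
                rw [← hfo']
                simp [Equiv.Perm.mul_apply]), hqmul f _ hf hc.1, hc.2, hfb']
            ring
          · have hc := hconj f' hf'
            have hp3 : Plus G U₀ (d * f' * d⁻¹ * (d * d)) := hc.1.mul hdd
            rw [hβ1 ((f * d) w) (f * (d * f' * d⁻¹ * (d * d))) (hf.mul hp3) (by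
                rw [← hfo']
                simp [Equiv.Perm.mul_apply]), hqmul f _ hf hp3, hqmul _ _ hc.1 hdd, hc.2, hddq,
              hfb']
            ring)
    exact ⟨β, α, h1, hsurj, h2, h3⟩

end Pool.Agent.Lib_MP_ce52b8_co
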