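import Mathlib

set_option autoImplicit false

namespace Pool.Agent.Lib_MP_ce52b8_co

open Finset

variable {V κ : Type*}

/-- A proper partial edge colouring with colour set `C`, encoded by the matchings `π a`
(`π a u` is the partner of `u` in colour `a`, and `π a u = u` if colour `a` is missing at `u`). -/
structure IsCol (C : Finset κ) (π : κ → V → V) : Prop where
  inv : ∀ a ∈ C, ∀ u, π a (π a u) = u
  disj : ∀ a ∈ C, ∀ b ∈ C, a ≠ b → ∀ u, π a u = π b u → π a u = u

/-- The coloured edges. -/
def Rel (C : Finset κ) (π : κ → V → V) (u w : V) : Prop := u ≠ w ∧ ∃ a ∈ C, π a u = w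

/-- The alternating walk from `u`. -/
def walk (p q : V → V) (u : V) : ℕ → V
  | 0 => u
  | n + 1 => if n % 2 = 0 then q (walk p q u n) else p (walk p q u n)

theorem walk_zero (p q : V → V) (u : V) : walk p q u 0 = u := rfl

theorem walk_even (p q : V → V) (u : V) {n : ℕ} (h : n % 2 = 0) :
    walk p q u (n + 1) = q (walk p q u n) := by
  simp [walk, h]

theorem walk_odd (p q : V → V) (u : V) {n : ℕ} (h : n % 2 = 1) :
    walk p q u (n + 1) = p (walk p q u n) := by
  have : ¬ (n % 2 = 0) := by omega
  simp [walk, this]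

/-- If a set is closed under `p` and `q` and contains a point of the walk, it contains the
start. -/
theorem walk_back {p q : V → V} (hp : ∀ u, p (p u) = u) (hq : ∀ u, q (q u) = u) (u : V)
    (S : Set V) (hSp : ∀ x ∈ S, p x ∈ S) (hSq : ∀ x ∈ S, q x ∈ S) :
    ∀ n, walk p q u n ∈ S → u ∈ S := by
  intro n
  induction n with
  | zero => intro h; exact h
  | succ n ih =>
    intro h
    apply ih
    rcases Nat.mod_two_eq_zero_or_one n with h0 | h1
    · rw [walk_even p q u h0] at h
      have := hSq _ h
      rwa [hq] at this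
    · rw [walk_odd p q u h1] at h
      have := hSp _ h
      rwa [hp] at this

theorem walk_closed {p q : V → V} (hp : ∀ u, p (p u) = u) (hq : ∀ u, q (q u) = u) {u : V}
    (hu : p u = u) :
    (∀ x ∈ Set.range (walk p q u), p x ∈ Set.range (walk p q u)) ∧
    (∀ x ∈ Set.range (walk p q u), q x ∈ Set.range (walk p q u)) := by
  constructor
  · rintro _ ⟨n, rfl⟩
    rcases Nat.mod_two_eq_zero_or_one n with h0 | h1
    · rcases n with _ | n
      · exact ⟨0, by rw [walk_zero, hu]⟩
      · have h1 : n % 2 = 1 := by omega
        refine ⟨n, ?_⟩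
        rw [walk_odd p q u h1, hp]
    · exact ⟨n + 1, walk_odd p q u h1⟩
  · rintro _ ⟨n, rfl⟩
    rcases Nat.mod_two_eq_zero_or_one n with h0 | h1
    · exact ⟨n + 1, walk_even p q u h0⟩
    · rcases n with _ | n
      · omega
      · have h0 : n % 2 = 0 := by omega
        refine ⟨n, ?_⟩
        rw [walk_even p q u h0, hq]

/-- Reflection: if the walk stalls at step `i` then it retraces its steps. -/
theorem walk_reflect {p q : V → V} (hp : ∀ u, p (p u) = u) (hq : ∀ u, q (q u) = u) {u : V}
    {i : ℕ} (hi : walk p q u (i + 1) = walk p q u i) :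
    ∀ t, t ≤ i → walk p q u (i + 1 + t) = walk p q u (i - t) := by
  intro t
  induction t with
  | zero => intro _; simpa using hi
  | succ t ih =>
    intro ht
    have h1 := ih (by omega)
    obtain ⟨s, hs⟩ : ∃ s, i = s + (t + 1) := ⟨i - (t + 1), by omega⟩
    have e1 : i - t = s + 1 := by omega
    have e2 : i - (t + 1) = s := by omega
    rw [e1] at h1
    rw [e2]
    have e3 : i + 1 + (t + 1) = (i + 1 + t) + 1 := by ring
    rw [e3]
    rcases Nat.mod_two_eq_zero_or_one s with h0 | h0
    · have : (i + 1 + t) % 2 = 0 := by omega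
      rw [walk_even p q u this, h1, walk_even p q u h0, hq]
    · have : (i + 1 + t) % 2 = 1 := by omega
      rw [walk_odd p q u this, h1, walk_odd p q u h0, hp]

theorem walk_periodic {p q : V → V} {u : V} (hu : p u = u)
    {i : ℕ} (hi : walk p q u (2 * i + 1) = u) :
    ∀ t, walk p q u (2 * i + 2 + t) = walk p q u t := by
  intro t
  induction t with
  | zero =>
    have : (2 * i + 1) % 2 = 1 := by omega
    have h := walk_odd p q u this
    rw [hi, hu] at h
    simpa [walk_zero] using h
  | succ t ih =>
    have e : 2 * i + 2 + (t + 1) = (2 * i + 2 + t) + 1 := by ring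
    rw [e]
    rcases Nat.mod_two_eq_zero_or_one t with h0 | h0
    · have : (2 * i + 2 + t) % 2 = 0 := by omega
      rw [walk_even p q u this, ih, walk_even p q u h0]
    · have : (2 * i + 2 + t) % 2 = 1 := by omega
      rw [walk_odd p q u this, ih, walk_odd p q u h0]

/-- All points of the walk occur among the first `i + 1` points if it stalls at step `i`. -/
theorem walk_mem_of_stall {p q : V → V} (hp : ∀ u, p (p u) = u) (hq : ∀ u, q (q u) = u) {u : V}
    (hu : p u = u) {i : ℕ} (hi : walk p q u (i + 1) = walk p q u i) (n : ℕ) :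
    ∃ j ≤ i, walk p q u n = walk p q u j := by
  have hfull : walk p q u (2 * i + 1) = u := by
    have := walk_reflect hp hq hi i le_rfl
    rw [Nat.sub_self, walk_zero] at this
    rw [← this]; congr 1; ring
  have hsmall : ∀ n, n ≤ 2 * i + 1 → ∃ j ≤ i, walk p q u n = walk p q u j := by
    intro n hn
    by_cases h : n ≤ i
    · exact ⟨n, h, rfl⟩
    · obtain ⟨t, ht⟩ : ∃ t, n = i + 1 + t := ⟨n - (i + 1), by omega⟩
      refine ⟨i - t, by omega, ?_⟩
      rw [ht]
      exact walk_reflect hp hq hi t (by omega)
  induction n using Nat.strong_induction_on with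
  | _ n ih =>
    by_cases hn : n ≤ 2 * i + 1
    · exact hsmall n hn
    · obtain ⟨t, ht⟩ : ∃ t, n = 2 * i + 2 + t := ⟨n - (2 * i + 2), by omega⟩
      rw [ht, walk_periodic hu hfull]
      exact ih t (by omega)

/-- An alternating component starting at an endpoint `u` has at most one other endpoint. -/
theorem walk_endpoint_unique {p q : V → V} (hp : ∀ u, p (p u) = u) (hq : ∀ u, q (q u) = u)
    {u : V} (hu : p u = u) {x y : V} (hx : x ∈ Set.range (walk p q u))
    (hy : y ∈ Set.range (walk p q u)) (hxu : x ≠ u) (hyu : y ≠ u)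
    (hxe : p x = x ∨ q x = x) (hye : p y = y ∨ q y = y) : x = y := by
  classical
  -- key: for the minimal index `i` of an endpoint the walk stalls
  have key : ∀ z, z ∈ Set.range (walk p q u) → z ≠ u → (p z = z ∨ q z = z) →
      ∃ i, walk p q u i = z ∧ (∀ j < i, walk p q u j ≠ z) ∧
        walk p q u (i + 1) = walk p q u i := by
    intro z hz hzu hze
    have hex : ∃ n, walk p q u n = z := hz
    refine ⟨Nat.find hex, Nat.find_spec hex, fun j hj => Nat.find_min hex hj, ?_⟩
    set i := Nat.find hex with hi
    have hiz : walk p q u i = z := Nat.find_spec hex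
    have hi0 : i ≠ 0 := by
      intro h
      rw [h, walk_zero] at hiz
      exact hzu hiz.symm
    obtain ⟨s, hs⟩ : ∃ s, i = s + 1 := ⟨i - 1, by omega⟩
    have hmin : walk p q u s ≠ z := Nat.find_min hex (by omega)
    rcases Nat.mod_two_eq_zero_or_one s with h0 | h0
    · -- z = q (w s); next is p z
      have h1 : z = q (walk p q u s) := by rw [← hiz, hs, walk_even p q u h0]
      have h2 : q z ≠ z := by
        intro h
        apply hmin
        rw [h1, hq] at h
        rw [h, ← h1]
      have h3 : p z = z := hze.resolve_right h2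
      have h4 : i % 2 = 1 := by omega
      rw [walk_odd p q u h4, hiz, h3]
    · have h1 : z = p (walk p q u s) := by rw [← hiz, hs, walk_odd p q u h0]
      have h2 : p z ≠ z := by
        intro h
        apply hmin
        rw [h1, hp] at h
        rw [h, ← h1]
      have h3 : q z = z := hze.resolve_left h2
      have h4 : i % 2 = 0 := by omega
      rw [walk_even p q u h4, hiz, h3]
  obtain ⟨i, hix, himin, hist⟩ := key x hx hxu hxe
  obtain ⟨j, hjy, hjmin, hjst⟩ := key y hy hyu hye
  rcases lt_trichotomy i j with h | h | h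
  · exfalso
    obtain ⟨l, hl, hl2⟩ := walk_mem_of_stall hp hq hu hist j
    exact hjmin l (by omega) (by rw [← hl2, hjy])
  · rw [← hix, ← hjy, h]
  · exfalso
    obtain ⟨l, hl, hl2⟩ := walk_mem_of_stall hp hq hu hjst i
    exact himin l (by omega) (by rw [← hl2, hix])

end Pool.Agent.Lib_MP_ce52b8_co
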