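import Pool.Agent.Lib_MP_ce52b8_co.Comm
import Pool.Agent.Lib_MP_ce52b8_co.Dihedral

set_option autoImplicit false

namespace Pool.Agent.Lib_MP_ce52b8_co

variable {V : Type*}

/-- The permutation `f` is an automorphism of `G`. -/
def IsAut (G : SimpleGraph V) (f : Equiv.Perm V) : Prop := ∀ u v, G.Adj (f u) (f v) ↔ G.Adj u v

theorem IsAut.one (G : SimpleGraph V) : IsAut G 1 := fun _ _ => Iff.rfl

theorem IsAut.mul {G : SimpleGraph V} {f g : Equiv.Perm V} (hf : IsAut G f) (hg : IsAut G g) :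
    IsAut G (f * g) := fun u v => (hf (g u) (g v)).trans (hg u v)

theorem IsAut.inv {G : SimpleGraph V} {f : Equiv.Perm V} (hf : IsAut G f) : IsAut G f⁻¹ := by
  intro u v
  rw [← hf (f⁻¹ u) (f⁻¹ v)]
  simp

/-- Cut-connectedness of a vertex set. -/
def Conn (G : SimpleGraph V) (X : Set V) : Prop :=
  ∀ A : Set V, (∀ x ∈ X, ∀ y ∈ X, x ∈ A → y ∉ A → ¬ G.Adj x y) → X ⊆ A ∨ X ⊆ Aᶜ

theorem Conn.image {G : SimpleGraph V} {X : Set V} (hX : Conn G X) {f : Equiv.Perm V}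
    (hf : IsAut G f) : Conn G (f '' X) := by
  intro A hA
  have h := hX (f ⁻¹' A) (by
    intro x hx y hy hxA hyA hxy
    exact hA (f x) ⟨x, hx, rfl⟩ (f y) ⟨y, hy, rfl⟩ hxA hyA ((hf x y).mpr hxy))
  rcases h with h | h
  · left
    rintro _ ⟨x, hx, rfl⟩
    exact h hx
  · right
    rintro _ ⟨x, hx, rfl⟩
    exact h hx

/-- The data extracted from a two-ended transitive graph. -/
structure EndData (G : SimpleGraph V) (o : V) (F U₀ U₁ : Set V) : Prop where
  oF : o ∈ F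
  Ffin : F.Finite
  U₀inf : U₀.Infinite
  U₁inf : U₁.Infinite
  cover : ∀ v, v ∈ F ∨ v ∈ U₀ ∨ v ∈ U₁
  disjF0 : ∀ v ∈ F, v ∉ U₀
  disjF1 : ∀ v ∈ F, v ∉ U₁
  disj01 : ∀ v ∈ U₀, v ∉ U₁
  noedge : ∀ u ∈ U₀, ∀ w ∈ U₁, ¬ G.Adj u w
  connF : Conn G F
  conn0 : Conn G U₀
  conn1 : Conn G U₁
  connF0 : Conn G (F ∪ U₀)
  connF1 : Conn G (F ∪ U₁)
  comm : ∀ f : Equiv.Perm V, IsAut G f → Comm (f '' U₀) U₀ ∨ Comm (f '' U₀) U₁
  fix : ∀ f : Equiv.Perm V, IsAut G f → f o = o → f '' F = F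
  near : {v | ∃ f : Equiv.Perm V, IsAut G f ∧ f o = v ∧ (f '' F ∩ F).Nonempty}.Finite

section

variable {G : SimpleGraph V} {o : V} {F U₀ U₁ : Set V}

/-- End-preserving automorphisms. -/
def Plus (G : SimpleGraph V) (U₀ : Set V) (f : Equiv.Perm V) : Prop :=
  IsAut G f ∧ Comm (f '' U₀) U₀

theorem image_mul (f g : Equiv.Perm V) (A : Set V) : ((f * g : Equiv.Perm V)) '' A = f '' (g '' A) := by
  rw [Set.image_image]; rfl

theorem image_inv_image (f : Equiv.Perm V) (A : Set V) : (f⁻¹ : Equiv.Perm V) '' (f '' A) = A := by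
  rw [← image_mul]; simp

theorem image_image_inv (f : Equiv.Perm V) (A : Set V) : f '' ((f⁻¹ : Equiv.Perm V) '' A) = A := by
  rw [← image_mul]; simp

theorem Plus.mul {f g : Equiv.Perm V} (hf : Plus G U₀ f) (hg : Plus G U₀ g) :
    Plus G U₀ (f * g) := by
  refine ⟨hf.1.mul hg.1, ?_⟩
  rw [image_mul]
  exact (hg.2.image f).trans hf.2

theorem Plus.inv {f : Equiv.Perm V} (hf : Plus G U₀ f) : Plus G U₀ f⁻¹ := by
  refine ⟨hf.1.inv, ?_⟩
  have := hf.2.image f⁻¹
  rw [image_inv_image] at this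
  exact this.symm

theorem Plus.one : Plus G U₀ 1 := ⟨IsAut.one G, by simpa using Comm.refl U₀⟩

theorem EndData.compl0 (h : EndData G o F U₀ U₁) : Comm U₀ᶜ U₁ := by
  constructor
  · apply h.Ffin.subset
    rintro x ⟨h1, h2⟩
    rcases h.cover x with hx | hx | hx
    · exact hx
    · exact absurd hx h1
    · exact absurd hx h2
  · have : U₁ \ U₀ᶜ = ∅ := by
      rw [Set.sdiff_eq_empty]
      intro x hx hx0
      exact h.disj01 x hx0 hx
    rw [this]; exact Set.finite_empty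

theorem EndData.compl1 (h : EndData G o F U₀ U₁) : Comm U₁ᶜ U₀ := by
  have := h.compl0.compl
  rw [compl_compl] at this
  exact this.symm

theorem EndData.not_comm (h : EndData G o F U₀ U₁) : ¬ Comm U₀ U₁ := by
  intro hc
  exact hc.not_subset_compl h.U₀inf (fun x hx => h.disj01 x hx)

theorem EndData.plus_image1 (h : EndData G o F U₀ U₁) {f : Equiv.Perm V} (hf : Plus G U₀ f) :
    Comm (f '' U₁) U₁ := by
  have h1 : Comm (f '' U₀ᶜ) (f '' U₁) := h.compl0.image f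
  rw [Set.image_compl_eq f.bijective] at h1
  exact h1.symm.trans (hf.2.compl.trans h.compl0)

theorem EndData.minus_image1 (h : EndData G o F U₀ U₁) {f : Equiv.Perm V}
    (hf : Comm (f '' U₀) U₁) : Comm (f '' U₁) U₀ := by
  have h1 : Comm (f '' U₀ᶜ) (f '' U₁) := h.compl0.image f
  rw [Set.image_compl_eq f.bijective] at h1
  exact h1.symm.trans (hf.compl.trans h.compl1)

theorem EndData.minus_mul_minus (h : EndData G o F U₀ U₁) {f g : Equiv.Perm V}
    (hf : IsAut G f) (hf' : Comm (f '' U₀) U₁) (hg : IsAut G g) (hg' : Comm (g '' U₀) U₁) :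
    Plus G U₀ (f * g) := by
  refine ⟨hf.mul hg, ?_⟩
  rw [image_mul]
  exact (hg'.image f).trans (h.minus_image1 hf')

theorem EndData.minus_inv (h : EndData G o F U₀ U₁) {f : Equiv.Perm V}
    (hf' : Comm (f '' U₀) U₁) : Comm ((f⁻¹ : Equiv.Perm V) '' U₀) U₁ := by
  have h1 := (h.minus_image1 hf').image f⁻¹
  rw [image_inv_image] at h1
  exact h1.symm

/-- The translation number. -/
noncomputable def tr (U₀ : Set V) (f : Equiv.Perm V) : ℤ := ri U₀ (f '' U₀)

theorem tr_mul {f g : Equiv.Perm V} (hf : Plus G U₀ f) (hg : Plus G U₀ g) :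
    tr U₀ (f * g) = tr U₀ f + tr U₀ g := by
  unfold tr
  rw [image_mul, ri_add hf.2.symm (hg.2.symm.image f), ri_image]

theorem tr_one : tr U₀ 1 = 0 := by
  unfold tr
  simp [ri_self]

theorem tr_inv {f : Equiv.Perm V} (hf : Plus G U₀ f) : tr U₀ f⁻¹ = - tr U₀ f := by
  have h := tr_mul hf hf.inv
  rw [mul_inv_cancel, tr_one] at h
  omega

theorem EndData.conj (h : EndData G o F U₀ U₁) {d f : Equiv.Perm V} (hd : IsAut G d)
    (hd' : Comm (d '' U₀) U₁) (hf : Plus G U₀ f) :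
    Plus G U₀ (d * f * d⁻¹) ∧ tr U₀ (d * f * d⁻¹) = - tr U₀ f := by
  have hinv := h.minus_inv hd'
  have hp : Plus G U₀ (d * f * d⁻¹) := by
    refine ⟨(hd.mul hf.1).mul hd.inv, ?_⟩
    rw [image_mul, image_mul]
    have h1 : Comm ((d⁻¹ : Equiv.Perm V) '' U₀) U₁ := hinv
    have h2 : Comm (f '' ((d⁻¹ : Equiv.Perm V) '' U₀)) U₁ := (h1.image f).trans (h.plus_image1 hf)
    exact (h2.image d).trans (h.minus_image1 hd')
  refine ⟨hp, ?_⟩
  unfold tr
  -- conjugate back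
  have e1 : ri U₀ ((d * f * d⁻¹ : Equiv.Perm V) '' U₀) = ri ((d⁻¹ : Equiv.Perm V) '' U₀) (f '' ((d⁻¹ : Equiv.Perm V) '' U₀)) := by
    rw [← ri_image ((d⁻¹ : Equiv.Perm V) '' U₀) (f '' ((d⁻¹ : Equiv.Perm V) '' U₀)) d, image_image_inv, image_mul, image_mul]
  rw [e1]
  have hA : Comm ((d⁻¹ : Equiv.Perm V) '' U₀) (f '' ((d⁻¹ : Equiv.Perm V) '' U₀)) :=
    hinv.trans ((h.plus_image1 hf).symm.trans (hinv.symm.image f))
  rw [ri_perm_eq hinv f hA]
  have hB : Comm U₁ (f '' U₁) := (h.plus_image1 hf).symm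
  rw [ri_perm_eq h.compl0.symm f hB, Set.image_compl_eq f.bijective, ri_compl]

/-- A connected set avoiding `f '' F` lies in `f '' U₀` or `f '' U₁`. -/
theorem EndData.side (h : EndData G o F U₀ U₁) {f : Equiv.Perm V} (hf : IsAut G f) {X : Set V}
    (hX : Conn G X) (hd : ∀ x ∈ X, x ∉ f '' F) : X ⊆ f '' U₀ ∨ X ⊆ f '' U₁ := by
  have hcov : ∀ v, v ∈ f '' F ∨ v ∈ f '' U₀ ∨ v ∈ f '' U₁ := by
    intro v
    rcases h.cover (f⁻¹ v) with hv | hv | hv
    · exact Or.inl ⟨_, hv, by simp⟩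
    · exact Or.inr (Or.inl ⟨_, hv, by simp⟩)
    · exact Or.inr (Or.inr ⟨_, hv, by simp⟩)
  have key : ∀ x ∈ X, x ∉ f '' U₀ → x ∈ f '' U₁ := by
    intro x hx hx0
    rcases hcov x with h1 | h1 | h1
    · exact absurd h1 (hd x hx)
    · exact absurd h1 hx0
    · exact h1
  have := hX (f '' U₀) (by
    intro x hx y hy hxA hyA hxy
    obtain ⟨x', hx', rfl⟩ := hxA
    obtain ⟨y', hy', rfl⟩ := key y hy hyA
    exact h.noedge x' hx' y' hy' ((hf x' y').mp hxy))
  rcases this with h1 | h1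
  · exact Or.inl h1
  · exact Or.inr (fun x hx => key x hx (h1 hx))

theorem EndData.side_one (h : EndData G o F U₀ U₁) {X : Set V}
    (hX : Conn G X) (hd : ∀ x ∈ X, x ∉ F) : X ⊆ U₀ ∨ X ⊆ U₁ := by
  have := h.side (IsAut.one G) hX (by simpa using hd)
  simpa using this

theorem EndData.tr_ne_zero (h : EndData G o F U₀ U₁) {f : Equiv.Perm V} (hf : Plus G U₀ f)
    (hd : ¬ (f '' F ∩ F).Nonempty) : tr U₀ f ≠ 0 := by
  have hdis : ∀ x, x ∈ f '' F → x ∉ F := fun x hx hx' => hd ⟨x, hx, hx'⟩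
  rcases h.side_one (h.connF.image hf.1) hdis with hs | hs
  · -- f F ⊆ U₀
    have h1 := h.side hf.1 h.connF1 (by
      rintro x (hx | hx) hx'
      · exact hdis x hx' hx
      · exact h.disj01 x (hs hx') hx)
    have h2 : F ∪ U₁ ⊆ f '' U₁ := by
      rcases h1 with h1 | h1
      · exfalso
        apply h.U₁inf
        apply hf.2.1.subset
        intro x hx
        exact ⟨h1 (Or.inr hx), fun hx0 => h.disj01 x hx0 hx⟩
      · exact h1
    have h3 : f '' U₀ ⊆ U₀ := by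
      rintro x hx
      by_contra hx0
      have : x ∈ F ∪ U₁ := by
        rcases h.cover x with h4 | h4 | h4
        · exact Or.inl h4
        · exact absurd h4 hx0
        · exact Or.inr h4
      obtain ⟨a, ha, hax⟩ := hx
      obtain ⟨b, hb, hbx⟩ := h2 this
      have : a = b := f.injective (hax.trans hbx.symm)
      exact h.disj01 a ha (this ▸ hb)
    have h4 : (U₀ \ f '' U₀).Nonempty := by
      refine ⟨f o, hs ⟨o, h.oF, rfl⟩, ?_⟩
      rintro ⟨a, ha, hao⟩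
      have := f.injective hao
      exact h.disjF0 o h.oF (this ▸ ha)
    have := ri_pos hf.2.symm h3 h4
    unfold tr
    omega
  · have h1 := h.side hf.1 h.connF0 (by
      rintro x (hx | hx) hx'
      · exact hdis x hx' hx
      · exact h.disj01 x hx (hs hx'))
    have h2 : F ∪ U₀ ⊆ f '' U₀ := by
      rcases h1 with h1 | h1
      · exact h1
      · exfalso
        apply h.U₀inf
        apply (h.plus_image1 hf).1.subset
        intro x hx
        exact ⟨h1 (Or.inr hx), h.disj01 x hx⟩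
    have h4 : (f '' U₀ \ U₀).Nonempty :=
      ⟨o, h2 (Or.inl h.oF), h.disjF0 o h.oF⟩
    have := ri_pos hf.2 (fun x hx => h2 (Or.inr hx)) h4
    have h5 := ri_symm (f '' U₀) U₀
    unfold tr
    omega

theorem EndData.tr_fix (h : EndData G o F U₀ U₁) {f : Equiv.Perm V} (hf : Plus G U₀ f)
    (ho : f o = o) : tr U₀ f = 0 := by
  have sub : ∀ g : Equiv.Perm V, Plus G U₀ g → g o = o → g '' U₀ ⊆ U₀ := by
    intro g hg hgo
    have hgF := h.fix g hg.1 hgo
    rcases h.side_one (h.conn0.image hg.1) (by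
      rintro x ⟨a, ha, rfl⟩ hx
      rw [← hgF] at hx
      obtain ⟨b, hb, hab⟩ := hx
      have := g.injective hab
      exact h.disjF0 b hb (this ▸ ha)) with h1 | h1
    · exact h1
    · exfalso
      have hinf : (g '' U₀).Infinite := h.U₀inf.image g.injective.injOn
      apply hinf
      apply hg.2.1.subset
      intro x hx
      exact ⟨hx, fun hx0 => h.disj01 x hx0 (h1 hx)⟩
  have h1 := sub f hf ho
  have h2 := sub f⁻¹ hf.inv (by
    rw [Equiv.Perm.inv_eq_iff_eq]; exact ho.symm)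
  have h3 : U₀ ⊆ f '' U₀ := by
    intro x hx
    exact ⟨f⁻¹ x, h2 ⟨x, hx, rfl⟩, by simp⟩
  have : f '' U₀ = U₀ := Set.Subset.antisymm h1 h3
  unfold tr
  rw [this, ri_self]

theorem EndData.tr_eq_of_image (h : EndData G o F U₀ U₁) {f g : Equiv.Perm V}
    (hf : Plus G U₀ f) (hg : Plus G U₀ g) (ho : f o = g o) : tr U₀ f = tr U₀ g := by
  have h1 := h.tr_fix (hf.inv.mul hg) (by
    rw [Equiv.Perm.mul_apply, Equiv.Perm.inv_eq_iff_eq, ho])
  rw [tr_mul hf.inv hg, tr_inv hf] at h1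
  omega

end

end Pool.Agent.Lib_MP_ce52b8_co
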